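import Pool.Agent.H473Z.SP.Gen

set_option autoImplicit false

/-!
Simplicial cones in dimension five given by a sign pattern, and the dual statement.
-/

namespace Pool.Agent.H473Z.SP

open Set

theorem simplicial {ι κ : Type*} [Fintype ι] [Fintype κ] [Nonempty κ]
    (h : ι → Fin 5 → ℝ) (z : κ → Fin 5 → ℝ) (sel : κ → Fin 4 → ι) (nb : κ → Fin 4 → κ)
    (h1 : ∀ j a, z j ⬝ᵥ h (sel j a) = 0)
    (h2 : ∀ j a b, b ≠ a → z (nb j a) ⬝ᵥ h (sel j b) = 0)
    (h3 : ∀ j a, 0 < z (nb j a) ⬝ᵥ h (sel j a))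
    (h4 : ∀ j, 0 < ∑ i, z j ⬝ᵥ h i)
    (x : Fin 5 → ℝ) (hx : ∀ j, 0 ≤ z j ⬝ᵥ x) :
    ∃ w : ι → ℝ, (∀ i, 0 ≤ w i) ∧ ∑ i, w i • h i = x := by
  classical
  let c : Fin 5 → ℝ := ∑ i, h i
  have hc : ∀ j, 0 < z j ⬝ᵥ c := by
    intro j
    have := h4 j
    rwa [← dotProduct_sum] at this
  obtain ⟨j, -, hj⟩ := Finset.exists_min_image Finset.univ (fun j => z j ⬝ᵥ x / z j ⬝ᵥ c)
    Finset.univ_nonempty
  set t := z j ⬝ᵥ x / z j ⬝ᵥ c with ht
  have ht0 : 0 ≤ t := div_nonneg (hx j) (hc j).le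
  let y := x - t • c
  have hy : ∀ k, 0 ≤ z k ⬝ᵥ y := by
    intro k
    have := hj k (Finset.mem_univ k)
    rw [le_div_iff₀ (hc k)] at this
    simp only [y, dotProduct_sub, dotProduct_smul, smul_eq_mul]
    linarith
  have hyj : z j ⬝ᵥ y = 0 := by
    simp only [y, dotProduct_sub, dotProduct_smul, smul_eq_mul, ht]
    field_simp [(hc j).ne']
    ring
  -- the five vectors `c`, `h (sel j a)` form a basis
  have hli : LinearIndependent ℝ (Fin.cons c (fun a => h (sel j a)) : Fin 5 → Fin 5 → ℝ) := by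
    rw [Fintype.linearIndependent_iff]
    intro g hg
    rw [Fin.sum_univ_succ] at hg
    simp only [Fin.cons_zero, Fin.cons_succ] at hg
    have g0 : g 0 = 0 := by
      have := congrArg (fun u => z j ⬝ᵥ u) hg
      simp only [dotProduct_add, dotProduct_smul, dotProduct_sum, h1, smul_eq_mul, mul_zero,
        Finset.sum_const_zero, add_zero, dotProduct_zero] at this
      exact (mul_eq_zero.1 this).resolve_right (hc j).ne'
    intro i
    refine Fin.cases g0 (fun a => ?_) i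
    have := congrArg (fun u => z (nb j a) ⬝ᵥ u) hg
    simp only [g0, zero_smul, zero_add, dotProduct_smul, dotProduct_sum, smul_eq_mul,
      dotProduct_zero] at this
    rw [Finset.sum_eq_single a (fun b _ hb => by rw [h2 j a b hb, mul_zero]) (by simp)] at this
    exact (mul_eq_zero.1 this).resolve_right (h3 j a).ne'
  have hsp := hli.span_eq_top_of_card_eq_finrank' (by simp)
  have hym : y ∈ Submodule.span ℝ
      (range (Fin.cons c (fun a => h (sel j a)) : Fin 5 → Fin 5 → ℝ)) := by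
    rw [hsp]; trivial
  obtain ⟨g, hg⟩ := (Submodule.mem_span_range_iff_exists_fun ℝ).1 hym
  rw [Fin.sum_univ_succ] at hg
  simp only [Fin.cons_zero, Fin.cons_succ] at hg
  have g0 : g 0 = 0 := by
    have := congrArg (fun u => z j ⬝ᵥ u) hg
    simp only [dotProduct_add, dotProduct_smul, dotProduct_sum, h1, smul_eq_mul, mul_zero,
      Finset.sum_const_zero, add_zero, hyj] at this
    exact (mul_eq_zero.1 this).resolve_right (hc j).ne'
  have gs : ∀ a : Fin 4, 0 ≤ g a.succ := by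
    intro a
    have := congrArg (fun u => z (nb j a) ⬝ᵥ u) hg
    simp only [g0, zero_smul, zero_add, dotProduct_smul, dotProduct_sum, smul_eq_mul] at this
    rw [Finset.sum_eq_single a (fun b _ hb => by rw [h2 j a b hb, mul_zero]) (by simp)] at this
    have h5 := hy (nb j a)
    rw [← this] at h5
    exact nonneg_of_mul_nonneg_left h5 (h3 j a)
  refine ⟨fun i => t + ∑ a : Fin 4, if sel j a = i then g a.succ else 0, fun i => ?_, ?_⟩
  · refine add_nonneg ht0 (Finset.sum_nonneg fun a _ => ?_)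
    split_ifs
    · exact gs a
    · exact le_rfl
  · simp only [add_smul, Finset.sum_add_distrib, Finset.sum_smul, ← Finset.smul_sum]
    rw [Finset.sum_comm]
    have : ∑ a : Fin 4, ∑ i, (if sel j a = i then g a.succ else 0) • h i = y := by
      rw [← hg, g0, zero_smul, zero_add]
      refine Finset.sum_congr rfl fun a _ => ?_
      rw [Finset.sum_eq_single (sel j a)] <;> simp +contextual [eq_comm]
    rw [this]
    simp [y, c]

abbrev E4 := EuclideanSpace ℝ (Fin 4)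

/-- Homogeneous coordinates of a point: the five coordinates have sum one. -/
def lift (x : E4) : Fin 5 → ℝ := ![x 0, x 1, x 2, 1 - x 0 - x 1 - x 2 - x 3, x 3]

/-- The point with homogeneous coordinates `r`. -/
noncomputable def pt (r : Fin 5 → ℝ) : E4 :=
  !₂[r 0 / ∑ a, r a, r 1 / ∑ a, r a, r 2 / ∑ a, r a, r 4 / ∑ a, r a]

theorem lift_pt (r : Fin 5 → ℝ) (hr : 0 < ∑ a, r a) : lift (pt r) = (∑ a, r a)⁻¹ • r := by
  have h := hr.ne'
  ext a
  fin_cases a <;> simp [lift, pt, div_eq_inv_mul]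
  rw [Fin.sum_univ_five] at h ⊢
  field_simp
  ring

theorem dot_lift_pt (g r : Fin 5 → ℝ) (hr : 0 < ∑ a, r a) :
    g ⬝ᵥ lift (pt r) = (∑ a, r a)⁻¹ * (g ⬝ᵥ r) := by
  rw [lift_pt r hr, dotProduct_smul, smul_eq_mul]

/-- The linear part of the affine function `x ↦ g ⬝ᵥ lift x`. -/
noncomputable def lin (g : Fin 5 → ℝ) : E4 →L[ℝ] ℝ :=
  innerSL ℝ (!₂[g 0 - g 3, g 1 - g 3, g 2 - g 3, g 4 - g 3] : E4)

theorem lin_eq (g : Fin 5 → ℝ) (x : E4) : g 3 + lin g x = g ⬝ᵥ lift x := by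
  simp [lin, lift, dotProduct, Fin.sum_univ_five, Fin.sum_univ_four, PiLp.inner_apply]
  ring

theorem exists_lin (f : E4 →L[ℝ] ℝ) (u : ℝ) : ∃ g : Fin 5 → ℝ, ∀ x, g ⬝ᵥ lift x = u - f x := by
  let e : Fin 4 → E4 := fun a => EuclideanSpace.single a 1
  refine ⟨![u - f (e 0), u - f (e 1), u - f (e 2), u, u - f (e 3)], fun x => ?_⟩
  have hx : x = x 0 • e 0 + x 1 • e 1 + x 2 • e 2 + x 3 • e 3 := by
    ext a
    fin_cases a <;> simp [e]
  have : f x = x 0 * f (e 0) + x 1 * f (e 1) + x 2 * f (e 2) + x 3 * f (e 3) := by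
    conv_lhs => rw [hx]
    simp
  rw [this]
  simp [lift, dotProduct, Fin.sum_univ_five]
  ring

theorem hull_of_cone {ι : Type*} [Fintype ι] (r : ι → Fin 5 → ℝ) (hr : ∀ i, 0 < ∑ a, r i a)
    (x : E4) (w : ι → ℝ) (hw : ∀ i, 0 ≤ w i) (hx : ∑ i, w i • r i = lift x) :
    x ∈ convexHull ℝ (range fun i => pt (r i)) := by
  rw [mem_hull_iff]
  refine ⟨fun i => w i * ∑ a, r i a, fun i => mul_nonneg (hw i) (hr i).le, ?_, ?_⟩
  · have : ∑ a, (∑ i, w i • r i) a = 1 := by
      rw [hx]; simp [lift, Fin.sum_univ_five]; ring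
    rw [← this]
    simp only [Finset.sum_apply, Pi.smul_apply, smul_eq_mul, Finset.mul_sum]
    rw [Finset.sum_comm]
  · have hc : ∀ a, ∑ i, w i * r i a = lift x a := by
      intro a
      rw [← hx]; simp [Finset.sum_apply]
    have hd : ∀ i a, w i * (∑ a, r i a) * (r i a / ∑ a, r i a) = w i * r i a := by
      intro i a
      have := (hr i).ne'
      field_simp
    ext a
    fin_cases a <;> simp [pt, hd, hc, lift]

theorem hull_of_dual {ι κ : Type*} [Fintype ι] [Fintype κ] (r : κ → Fin 5 → ℝ)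
    (hr : ∀ j, 0 < ∑ a, r j a) (h : ι → Fin 5 → ℝ)
    (H : ∀ g : Fin 5 → ℝ, (∀ j, 0 ≤ r j ⬝ᵥ g) →
      ∃ w : ι → ℝ, (∀ i, 0 ≤ w i) ∧ ∑ i, w i • h i = g)
    (x : E4) (hx : ∀ i, 0 ≤ h i ⬝ᵥ lift x) :
    x ∈ convexHull ℝ (range fun j => pt (r j)) := by
  by_contra hc
  obtain ⟨f, u, hf1, hf2⟩ := geometric_hahn_banach_closed_point (convex_convexHull ℝ _)
    ((finite_range _).isClosed_convexHull ℝ) hc
  obtain ⟨g, hg⟩ := exists_lin f u
  obtain ⟨w, hw0, hw⟩ := H g (by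
    intro j
    have h1 := hf1 (pt (r j)) (subset_convexHull ℝ _ (mem_range_self j))
    have h2 := hg (pt (r j))
    rw [dot_lift_pt _ _ (hr j)] at h2
    rw [dotProduct_comm]
    have h3 : 0 < (∑ a, r j a)⁻¹ * g ⬝ᵥ r j := by linarith
    exact ((mul_pos_iff_of_pos_left (inv_pos.2 (hr j))).1 h3).le)
  have h4 := hg x
  rw [← hw, sum_dotProduct] at h4
  have : 0 ≤ ∑ i, (w i • h i) ⬝ᵥ lift x := Finset.sum_nonneg fun i _ => by
    rw [smul_dotProduct, smul_eq_mul]; exact mul_nonneg (hw0 i) (hx i)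
  linarith

end Pool.Agent.H473Z.SP
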