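import Mathlib

set_option autoImplicit false

/-!
Integer data of a four-dimensional polytope with 37 vertices and 37 facets.
-/

namespace Pool.Agent.H473Z.SP

def Rl : List (List ℤ) := [
    [19, 15, 7, 1, 1],
    [1, 0, 0, 0, 0],
    [0, 1, 0, 0, 0],
    [0, 0, 1, 0, 0],
    [0, 0, 0, 1, 0],
    [3, 9, 22, 16, 1],
    [12, 11, 11, 10, 1],
    [2, 8, 16, 23, 1],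
    [16, 15, 8, 4, 1],
    [14, 12, 9, 8, 1],
    [12, 0, 0, 0, -1],
    [0, 12, 0, 0, -7],
    [192, 0, 180, 0, -301],
    [48, 0, 0, 108, -139],
    [264, 0, 72, 468, -721],
    [12, 0, 0, 36, -43],
    [0, 0, 0, 3, -2],
    [0, 0, 6, 0, -1],
    [12, 0, 0, 84, -79],
    [12, 0, 84, 0, -37],
    [276, 96, 0, 1356, -1561],
    [0, 9, 3, 0, -10],
    [87, 9, 90, 0, -155],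
    [92, 79, 170, 0, -310],
    [2268, 1848, 3480, 1308, -8263],
    [0, 12, 0, 8, -17],
    [48, 12, 0, 120, -161],
    [156, 84, 180, 120, -497],
    [0, 4, 0, 7, -10],
    [0, 72, 42, 0, -103],
    [12, 84, 0, 192, -263],
    [0, 36, 12, 4, -45],
    [0, 6, 3, 0, -8],
    [324, 180, 384, 236, -1035],
    [18, 12, 24, 12, -61],
    [2, 18, 13, 0, -30],
    [144, 120, 222, 84, -529]]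

def Fl : List (List ℤ) := [
    [1, 7, 19, 15, 12],
    [0, 0, 1, 0, 0],
    [0, 0, 0, 1, 0],
    [0, 1, 0, 0, 0],
    [1, 0, 0, 0, 0],
    [16, 22, 3, 9, 12],
    [10, 11, 12, 11, 12],
    [23, 16, 2, 8, 12],
    [4, 8, 16, 15, 12],
    [8, 9, 14, 12, 12],
    [0, 0, 0, 1, -1],
    [0, 0, 1, 0, -7],
    [15, 0, 0, 16, -301],
    [0, 9, 0, 4, -139],
    [6, 39, 0, 22, -721],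
    [0, 3, 0, 1, -43],
    [0, 1, 0, 0, -8],
    [1, 0, 0, 0, -2],
    [0, 7, 0, 1, -79],
    [7, 0, 0, 1, -37],
    [0, 113, 8, 23, -1561],
    [1, 0, 3, 0, -40],
    [30, 0, 3, 29, -620],
    [170, 0, 79, 92, -3720],
    [290, 109, 154, 189, -8263],
    [0, 2, 3, 0, -51],
    [0, 10, 1, 4, -161],
    [15, 10, 7, 13, -497],
    [0, 7, 4, 0, -120],
    [7, 0, 12, 0, -206],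
    [0, 16, 7, 1, -263],
    [3, 1, 9, 0, -135],
    [1, 0, 2, 0, -32],
    [96, 59, 45, 81, -3105],
    [4, 2, 2, 3, -122],
    [13, 0, 18, 2, -360],
    [37, 14, 20, 24, -1058]]

def R (i : Fin 37) (a : Fin 5) : ℤ := (Rl.getD i []).getD a 0

def Fc (k : Fin 37) (a : Fin 5) : ℤ := (Fl.getD k []).getD a 0

def dot (u v : Fin 5 → ℤ) : ℤ := u 0 * v 0 + u 1 * v 1 + u 2 * v 2 + u 3 * v 3 + u 4 * v 4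

def rows : List ℕ := [10978622464, 1444260878, 39206919190, 1045532, 7283607578, 25935269888, 87192297472, 104985460736, 135322927104, 137405399040, 15, 23, 45, 75, 105, 106, 154, 156, 170, 172, 226, 277, 293, 420, 480, 531, 579, 609, 658, 660, 706, 785, 788, 801, 864, 900, 960]

def Ib (i k : Fin 37) : Bool := (rows.getD i 0).testBit k

def et (a : Fin 5) : ℤ := if a = 4 then 1 else 0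

def G1 (j : Fin 28) : Fin 5 → ℤ := if h : j.val < 27 then Fc ⟨10 + j.val, by omega⟩ else et

def H1 (i : Fin 10) : Fin 5 → ℤ := R ⟨i.val, by omega⟩

def H2 (i : Fin 11) : Fin 5 → ℤ := if h : i.val < 10 then Fc ⟨i.val, by omega⟩ else fun a => - et a

def idx2 (j : Fin 31) : Fin 37 := if h : j.val < 4 then ⟨j.val + 1, by omega⟩ else ⟨j.val + 6, by omega⟩

def tab (n : ℕ) [NeZero n] (l : List (List ℕ)) (j a : ℕ) : Fin n := Fin.ofNat n ((l.getD j []).getD a 0)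

def sel1 (j : Fin 28) (a : Fin 4) : Fin 10 := tab 10 [[0, 1, 2, 3], [0, 1, 2, 4], [0, 2, 3, 5], [0, 1, 3, 6], [0, 3, 5, 6], [1, 3, 5, 6], [1, 3, 4, 7], [2, 3, 4, 7], [1, 3, 5, 7], [2, 3, 5, 7], [1, 5, 6, 7], [0, 2, 4, 8], [0, 2, 5, 8], [2, 5, 7, 8], [5, 6, 7, 8], [0, 1, 4, 9], [0, 1, 6, 9], [0, 5, 6, 9], [1, 4, 7, 9], [2, 4, 7, 9], [1, 6, 7, 9], [0, 4, 8, 9], [2, 4, 8, 9], [0, 5, 8, 9], [5, 6, 8, 9], [2, 7, 8, 9], [6, 7, 8, 9], [1, 2, 3, 4]] j a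

def nb1 (j : Fin 28) (a : Fin 4) : Fin 28 := tab 28 [[27, 2, 3, 1], [27, 11, 15, 0], [9, 4, 12, 0], [5, 4, 16, 0], [5, 17, 3, 2], [4, 10, 3, 8], [7, 18, 8, 27], [6, 19, 9, 27], [9, 10, 6, 5], [8, 13, 7, 2], [14, 20, 8, 5], [22, 21, 12, 1], [13, 23, 11, 2], [14, 25, 12, 9], [26, 13, 24, 10], [18, 21, 16, 1], [20, 17, 15, 3], [24, 16, 23, 4], [19, 20, 15, 6], [18, 25, 22, 7], [26, 18, 16, 10], [22, 23, 15, 11], [21, 25, 19, 11], [24, 21, 17, 12], [26, 23, 17, 14], [26, 22, 19, 13], [25, 24, 20, 14], [7, 6, 1, 0]] j a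

def sel2 (j : Fin 31) (a : Fin 4) : Fin 11 := tab 11 [[1, 2, 3, 10], [1, 2, 4, 10], [2, 3, 4, 10], [1, 3, 4, 10], [0, 1, 2, 3], [0, 1, 2, 4], [0, 2, 3, 5], [0, 1, 3, 6], [0, 3, 5, 6], [1, 3, 5, 6], [1, 3, 4, 7], [2, 3, 4, 7], [1, 3, 5, 7], [2, 3, 5, 7], [1, 5, 6, 7], [0, 2, 4, 8], [0, 2, 5, 8], [2, 5, 7, 8], [5, 6, 7, 8], [0, 1, 4, 9], [0, 1, 6, 9], [0, 5, 6, 9], [1, 4, 7, 9], [2, 4, 7, 9], [1, 6, 7, 9], [0, 4, 8, 9], [2, 4, 8, 9], [0, 5, 8, 9], [5, 6, 8, 9], [2, 7, 8, 9], [6, 7, 8, 9]] j a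

def nb2 (j : Fin 31) (a : Fin 4) : Fin 31 := tab 31 [[2, 3, 1, 4], [2, 3, 0, 5], [3, 1, 0, 11], [2, 1, 0, 10], [0, 6, 7, 5], [1, 15, 19, 4], [13, 8, 16, 4], [9, 8, 20, 4], [9, 21, 7, 6], [8, 14, 7, 12], [11, 22, 12, 3], [10, 23, 13, 2], [13, 14, 10, 9], [12, 17, 11, 6], [18, 24, 12, 9], [26, 25, 16, 5], [17, 27, 15, 6], [18, 29, 16, 13], [30, 17, 28, 14], [22, 25, 20, 5], [24, 21, 19, 7], [28, 20, 27, 8], [23, 24, 19, 10], [22, 29, 26, 11], [30, 22, 20, 14], [26, 27, 19, 15], [25, 29, 23, 15], [28, 25, 21, 16], [30, 27, 21, 18], [30, 26, 23, 17], [29, 28, 24, 18]] j a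

def al (k : Fin 37) : Fin 37 := Fin.ofNat 37 ([0, 1, 2, 3, 4, 5, 6, 7, 8, 9, 11, 10, 25, 21, 31, 32, 17, 16, 29, 28, 35, 13, 26, 30, 36, 12, 22, 33, 19, 18, 23, 14, 15, 27, 34, 20, 24].getD k 0)

def be (k : Fin 37) : Fin 37 := Fin.ofNat 37 ([0, 2, 1, 4, 3, 9, 8, 7, 6, 5, 10, 11, 12, 13, 14, 15, 16, 17, 18, 19, 20, 21, 22, 23, 24, 25, 26, 27, 28, 29, 30, 31, 32, 33, 34, 35, 36].getD k 0)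

def ctl : List (List ℕ) := [
    [12, 5, 5, 4, 4, 5, 4, 0, 4, 5, 0, 0, 0, 0, 0, 0, 0, 0, 0, 0, 0, 0, 0, 0, 0, 0, 0, 0, 0, 0, 0, 0, 0, 0, 0, 0, 0],
    [5, 14, 4, 7, 6, 3, 5, 5, 0, 4, 3, 2, 2, 2, 1, 2, 2, 2, 2, 2, 1, 1, 1, 1, 0, 1, 1, 0, 1, 1, 1, 0, 1, 0, 0, 1, 0],
    [5, 4, 14, 6, 7, 4, 0, 5, 5, 3, 2, 3, 1, 1, 0, 1, 2, 2, 1, 1, 1, 2, 1, 1, 0, 2, 1, 0, 2, 2, 1, 1, 2, 0, 0, 1, 0],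
    [4, 7, 6, 12, 4, 5, 3, 4, 0, 0, 2, 2, 2, 1, 1, 1, 2, 3, 1, 2, 0, 2, 1, 1, 0, 1, 0, 0, 1, 2, 0, 1, 2, 0, 0, 1, 0],
    [4, 6, 7, 4, 12, 0, 0, 4, 3, 5, 2, 2, 1, 2, 1, 2, 3, 2, 2, 1, 1, 1, 0, 0, 0, 2, 1, 0, 2, 1, 1, 1, 1, 0, 0, 0, 0],
    [5, 3, 4, 5, 0, 12, 6, 5, 5, 3, 0, 0, 0, 0, 0, 0, 0, 0, 0, 0, 0, 0, 0, 0, 0, 0, 0, 0, 0, 0, 0, 0, 0, 0, 0, 0, 0],
    [4, 5, 0, 3, 0, 6, 10, 4, 3, 5, 0, 0, 0, 0, 0, 0, 0, 0, 0, 0, 0, 0, 0, 0, 0, 0, 0, 0, 0, 0, 0, 0, 0, 0, 0, 0, 0],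
    [0, 5, 5, 4, 4, 5, 4, 12, 4, 5, 0, 0, 0, 0, 0, 0, 0, 0, 0, 0, 0, 0, 0, 0, 0, 0, 0, 0, 0, 0, 0, 0, 0, 0, 0, 0, 0],
    [4, 0, 5, 0, 3, 5, 3, 4, 10, 6, 0, 0, 0, 0, 0, 0, 0, 0, 0, 0, 0, 0, 0, 0, 0, 0, 0, 0, 0, 0, 0, 0, 0, 0, 0, 0, 0],
    [5, 4, 3, 0, 5, 3, 5, 5, 6, 12, 0, 0, 0, 0, 0, 0, 0, 0, 0, 0, 0, 0, 0, 0, 0, 0, 0, 0, 0, 0, 0, 0, 0, 0, 0, 0, 0],
    [0, 3, 2, 2, 2, 0, 0, 0, 0, 0, 4, 3, 3, 3, 2, 2, 2, 2, 2, 2, 1, 2, 2, 1, 0, 2, 2, 1, 1, 1, 1, 1, 1, 1, 0, 1, 0],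
    [0, 2, 3, 2, 2, 0, 0, 0, 0, 0, 3, 4, 2, 2, 1, 1, 2, 2, 1, 1, 1, 3, 2, 1, 0, 3, 2, 1, 2, 2, 1, 2, 2, 1, 0, 1, 0],
    [0, 2, 1, 2, 1, 0, 0, 0, 0, 0, 3, 2, 4, 2, 3, 2, 1, 2, 2, 3, 1, 2, 3, 2, 1, 1, 1, 2, 0, 1, 0, 1, 1, 2, 1, 1, 0],
    [0, 2, 1, 1, 2, 0, 0, 0, 0, 0, 3, 2, 2, 4, 3, 3, 2, 1, 2, 1, 2, 1, 1, 0, 1, 2, 3, 2, 1, 0, 2, 1, 0, 1, 1, 0, 1],
    [0, 1, 0, 1, 1, 0, 0, 0, 0, 0, 2, 1, 3, 3, 4, 3, 1, 1, 2, 2, 2, 1, 2, 1, 2, 1, 2, 3, 0, 0, 1, 1, 0, 2, 2, 0, 1],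
    [0, 2, 1, 1, 2, 0, 0, 0, 0, 0, 2, 1, 2, 3, 3, 4, 2, 1, 3, 2, 3, 0, 1, 1, 2, 1, 2, 2, 1, 0, 2, 0, 0, 1, 2, 0, 1],
    [0, 2, 2, 2, 3, 0, 0, 0, 0, 0, 2, 2, 1, 2, 1, 2, 4, 3, 3, 2, 2, 1, 0, 1, 1, 2, 1, 0, 3, 2, 2, 1, 1, 0, 0, 1, 1],
    [0, 2, 2, 3, 2, 0, 0, 0, 0, 0, 2, 2, 2, 1, 1, 1, 3, 4, 2, 3, 1, 2, 1, 2, 1, 1, 0, 0, 2, 3, 1, 1, 2, 0, 0, 2, 1],
    [0, 2, 1, 1, 2, 0, 0, 0, 0, 0, 2, 1, 2, 2, 2, 3, 3, 2, 4, 3, 3, 0, 1, 2, 2, 1, 1, 1, 2, 1, 2, 0, 0, 1, 1, 1, 1],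
    [0, 2, 1, 2, 1, 0, 0, 0, 0, 0, 2, 1, 3, 1, 2, 2, 2, 3, 3, 4, 2, 1, 2, 3, 2, 0, 0, 1, 1, 2, 1, 0, 1, 1, 1, 2, 1],
    [0, 1, 1, 0, 1, 0, 0, 0, 0, 0, 1, 1, 1, 2, 2, 3, 2, 1, 3, 2, 4, 0, 1, 2, 3, 1, 2, 2, 2, 1, 3, 0, 0, 1, 2, 1, 2],
    [0, 1, 2, 2, 1, 0, 0, 0, 0, 0, 2, 3, 2, 1, 1, 0, 1, 2, 0, 1, 0, 4, 3, 2, 1, 2, 1, 1, 1, 2, 0, 3, 3, 2, 1, 2, 1],
    [0, 1, 1, 1, 0, 0, 0, 0, 0, 0, 2, 2, 3, 1, 2, 1, 0, 1, 1, 2, 1, 3, 4, 3, 2, 1, 1, 2, 0, 1, 0, 2, 2, 3, 2, 2, 1],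
    [0, 1, 1, 1, 0, 0, 0, 0, 0, 0, 1, 1, 2, 0, 1, 1, 1, 2, 2, 3, 2, 2, 3, 4, 3, 0, 0, 1, 1, 2, 1, 1, 2, 2, 2, 3, 2],
    [0, 0, 0, 0, 0, 0, 0, 0, 0, 0, 0, 0, 1, 1, 2, 2, 1, 1, 2, 2, 3, 1, 2, 3, 4, 0, 1, 2, 1, 1, 2, 1, 1, 2, 3, 2, 3],
    [0, 1, 2, 1, 2, 0, 0, 0, 0, 0, 2, 3, 1, 2, 1, 1, 2, 1, 1, 0, 1, 2, 1, 0, 0, 4, 3, 2, 3, 2, 2, 3, 2, 2, 1, 1, 1],
    [0, 1, 1, 0, 1, 0, 0, 0, 0, 0, 2, 2, 1, 3, 2, 2, 1, 0, 1, 0, 2, 1, 1, 0, 1, 3, 4, 3, 2, 1, 3, 2, 1, 2, 2, 1, 2],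
    [0, 0, 0, 0, 0, 0, 0, 0, 0, 0, 1, 1, 2, 2, 3, 2, 0, 0, 1, 1, 2, 1, 2, 1, 2, 2, 3, 4, 1, 1, 2, 2, 1, 3, 3, 1, 2],
    [0, 1, 2, 1, 2, 0, 0, 0, 0, 0, 1, 2, 0, 1, 0, 1, 3, 2, 2, 1, 2, 1, 0, 1, 1, 3, 2, 1, 4, 3, 3, 2, 2, 1, 1, 2, 2],
    [0, 1, 2, 2, 1, 0, 0, 0, 0, 0, 1, 2, 1, 0, 0, 0, 2, 3, 1, 2, 1, 2, 1, 2, 1, 2, 1, 1, 3, 4, 2, 2, 3, 1, 1, 3, 2],
    [0, 1, 1, 0, 1, 0, 0, 0, 0, 0, 1, 1, 0, 2, 1, 2, 2, 1, 2, 1, 3, 0, 0, 1, 2, 2, 3, 2, 3, 2, 4, 1, 1, 1, 2, 2, 3],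
    [0, 0, 1, 1, 1, 0, 0, 0, 0, 0, 1, 2, 1, 1, 1, 0, 1, 1, 0, 0, 0, 3, 2, 1, 1, 3, 2, 2, 2, 2, 1, 4, 3, 3, 2, 2, 2],
    [0, 1, 2, 2, 1, 0, 0, 0, 0, 0, 1, 2, 1, 0, 0, 0, 1, 2, 0, 1, 0, 3, 2, 2, 1, 2, 1, 1, 2, 3, 1, 3, 4, 2, 2, 3, 2],
    [0, 0, 0, 0, 0, 0, 0, 0, 0, 0, 1, 1, 2, 1, 2, 1, 0, 0, 1, 1, 1, 2, 3, 2, 2, 2, 2, 3, 1, 1, 1, 3, 2, 4, 3, 2, 2],
    [0, 0, 0, 0, 0, 0, 0, 0, 0, 0, 0, 0, 1, 1, 2, 2, 0, 0, 1, 1, 2, 1, 2, 2, 3, 1, 2, 3, 1, 1, 2, 2, 2, 3, 4, 2, 3],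
    [0, 1, 1, 1, 0, 0, 0, 0, 0, 0, 1, 1, 1, 0, 0, 0, 1, 2, 1, 2, 1, 2, 2, 3, 2, 1, 1, 1, 2, 3, 2, 2, 3, 2, 2, 4, 3],
    [0, 0, 0, 0, 0, 0, 0, 0, 0, 0, 0, 0, 0, 1, 1, 1, 1, 1, 1, 1, 2, 1, 1, 2, 3, 1, 2, 2, 2, 2, 3, 2, 2, 2, 3, 3, 4]]

def ccl : List (List ℕ) := [
    [12, 5, 5, 4, 4, 5, 4, 0, 4, 5, 0, 0, 0, 0, 0, 0, 0, 0, 0, 0, 0, 0, 0, 0, 0, 0, 0, 0, 0, 0, 0, 0, 0, 0, 0, 0, 0],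
    [5, 14, 4, 7, 6, 3, 5, 5, 0, 4, 2, 3, 1, 1, 0, 1, 2, 2, 1, 1, 1, 2, 1, 1, 0, 2, 1, 0, 2, 2, 1, 1, 2, 0, 0, 1, 0],
    [5, 4, 14, 6, 7, 4, 0, 5, 5, 3, 3, 2, 2, 2, 1, 2, 2, 2, 2, 2, 1, 1, 1, 1, 0, 1, 1, 0, 1, 1, 1, 0, 1, 0, 0, 1, 0],
    [4, 7, 6, 12, 4, 5, 3, 4, 0, 0, 2, 2, 1, 2, 1, 2, 3, 2, 2, 1, 1, 1, 0, 0, 0, 2, 1, 0, 2, 1, 1, 1, 1, 0, 0, 0, 0],
    [4, 6, 7, 4, 12, 0, 0, 4, 3, 5, 2, 2, 2, 1, 1, 1, 2, 3, 1, 2, 0, 2, 1, 1, 0, 1, 0, 0, 1, 2, 0, 1, 2, 0, 0, 1, 0],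
    [5, 3, 4, 5, 0, 12, 6, 5, 5, 3, 0, 0, 0, 0, 0, 0, 0, 0, 0, 0, 0, 0, 0, 0, 0, 0, 0, 0, 0, 0, 0, 0, 0, 0, 0, 0, 0],
    [4, 5, 0, 3, 0, 6, 10, 4, 3, 5, 0, 0, 0, 0, 0, 0, 0, 0, 0, 0, 0, 0, 0, 0, 0, 0, 0, 0, 0, 0, 0, 0, 0, 0, 0, 0, 0],
    [0, 5, 5, 4, 4, 5, 4, 12, 4, 5, 0, 0, 0, 0, 0, 0, 0, 0, 0, 0, 0, 0, 0, 0, 0, 0, 0, 0, 0, 0, 0, 0, 0, 0, 0, 0, 0],
    [4, 0, 5, 0, 3, 5, 3, 4, 10, 6, 0, 0, 0, 0, 0, 0, 0, 0, 0, 0, 0, 0, 0, 0, 0, 0, 0, 0, 0, 0, 0, 0, 0, 0, 0, 0, 0],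
    [5, 4, 3, 0, 5, 3, 5, 5, 6, 12, 0, 0, 0, 0, 0, 0, 0, 0, 0, 0, 0, 0, 0, 0, 0, 0, 0, 0, 0, 0, 0, 0, 0, 0, 0, 0, 0],
    [0, 2, 3, 2, 2, 0, 0, 0, 0, 0, 4, 3, 3, 3, 2, 2, 2, 2, 2, 2, 1, 2, 2, 1, 0, 2, 2, 1, 1, 1, 1, 1, 1, 1, 0, 1, 0],
    [0, 3, 2, 2, 2, 0, 0, 0, 0, 0, 3, 4, 2, 2, 1, 1, 2, 2, 1, 1, 1, 3, 2, 1, 0, 3, 2, 1, 2, 2, 1, 2, 2, 1, 0, 1, 0],
    [0, 1, 2, 1, 2, 0, 0, 0, 0, 0, 3, 2, 4, 2, 3, 2, 1, 2, 2, 3, 1, 2, 3, 2, 1, 1, 1, 2, 0, 1, 0, 1, 1, 2, 1, 1, 0],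
    [0, 1, 2, 2, 1, 0, 0, 0, 0, 0, 3, 2, 2, 4, 3, 3, 2, 1, 2, 1, 2, 1, 1, 0, 1, 2, 3, 2, 1, 0, 2, 1, 0, 1, 1, 0, 1],
    [0, 0, 1, 1, 1, 0, 0, 0, 0, 0, 2, 1, 3, 3, 4, 3, 1, 1, 2, 2, 2, 1, 2, 1, 2, 1, 2, 3, 0, 0, 1, 1, 0, 2, 2, 0, 1],
    [0, 1, 2, 2, 1, 0, 0, 0, 0, 0, 2, 1, 2, 3, 3, 4, 2, 1, 3, 2, 3, 0, 1, 1, 2, 1, 2, 2, 1, 0, 2, 0, 0, 1, 2, 0, 1],
    [0, 2, 2, 3, 2, 0, 0, 0, 0, 0, 2, 2, 1, 2, 1, 2, 4, 3, 3, 2, 2, 1, 0, 1, 1, 2, 1, 0, 3, 2, 2, 1, 1, 0, 0, 1, 1],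
    [0, 2, 2, 2, 3, 0, 0, 0, 0, 0, 2, 2, 2, 1, 1, 1, 3, 4, 2, 3, 1, 2, 1, 2, 1, 1, 0, 0, 2, 3, 1, 1, 2, 0, 0, 2, 1],
    [0, 1, 2, 2, 1, 0, 0, 0, 0, 0, 2, 1, 2, 2, 2, 3, 3, 2, 4, 3, 3, 0, 1, 2, 2, 1, 1, 1, 2, 1, 2, 0, 0, 1, 1, 1, 1],
    [0, 1, 2, 1, 2, 0, 0, 0, 0, 0, 2, 1, 3, 1, 2, 2, 2, 3, 3, 4, 2, 1, 2, 3, 2, 0, 0, 1, 1, 2, 1, 0, 1, 1, 1, 2, 1],
    [0, 1, 1, 1, 0, 0, 0, 0, 0, 0, 1, 1, 1, 2, 2, 3, 2, 1, 3, 2, 4, 0, 1, 2, 3, 1, 2, 2, 2, 1, 3, 0, 0, 1, 2, 1, 2],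
    [0, 2, 1, 1, 2, 0, 0, 0, 0, 0, 2, 3, 2, 1, 1, 0, 1, 2, 0, 1, 0, 4, 3, 2, 1, 2, 1, 1, 1, 2, 0, 3, 3, 2, 1, 2, 1],
    [0, 1, 1, 0, 1, 0, 0, 0, 0, 0, 2, 2, 3, 1, 2, 1, 0, 1, 1, 2, 1, 3, 4, 3, 2, 1, 1, 2, 0, 1, 0, 2, 2, 3, 2, 2, 1],
    [0, 1, 1, 0, 1, 0, 0, 0, 0, 0, 1, 1, 2, 0, 1, 1, 1, 2, 2, 3, 2, 2, 3, 4, 3, 0, 0, 1, 1, 2, 1, 1, 2, 2, 2, 3, 2],
    [0, 0, 0, 0, 0, 0, 0, 0, 0, 0, 0, 0, 1, 1, 2, 2, 1, 1, 2, 2, 3, 1, 2, 3, 4, 0, 1, 2, 1, 1, 2, 1, 1, 2, 3, 2, 3],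
    [0, 2, 1, 2, 1, 0, 0, 0, 0, 0, 2, 3, 1, 2, 1, 1, 2, 1, 1, 0, 1, 2, 1, 0, 0, 4, 3, 2, 3, 2, 2, 3, 2, 2, 1, 1, 1],
    [0, 1, 1, 1, 0, 0, 0, 0, 0, 0, 2, 2, 1, 3, 2, 2, 1, 0, 1, 0, 2, 1, 1, 0, 1, 3, 4, 3, 2, 1, 3, 2, 1, 2, 2, 1, 2],
    [0, 0, 0, 0, 0, 0, 0, 0, 0, 0, 1, 1, 2, 2, 3, 2, 0, 0, 1, 1, 2, 1, 2, 1, 2, 2, 3, 4, 1, 1, 2, 2, 1, 3, 3, 1, 2],
    [0, 2, 1, 2, 1, 0, 0, 0, 0, 0, 1, 2, 0, 1, 0, 1, 3, 2, 2, 1, 2, 1, 0, 1, 1, 3, 2, 1, 4, 3, 3, 2, 2, 1, 1, 2, 2],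
    [0, 2, 1, 1, 2, 0, 0, 0, 0, 0, 1, 2, 1, 0, 0, 0, 2, 3, 1, 2, 1, 2, 1, 2, 1, 2, 1, 1, 3, 4, 2, 2, 3, 1, 1, 3, 2],
    [0, 1, 1, 1, 0, 0, 0, 0, 0, 0, 1, 1, 0, 2, 1, 2, 2, 1, 2, 1, 3, 0, 0, 1, 2, 2, 3, 2, 3, 2, 4, 1, 1, 1, 2, 2, 3],
    [0, 1, 0, 1, 1, 0, 0, 0, 0, 0, 1, 2, 1, 1, 1, 0, 1, 1, 0, 0, 0, 3, 2, 1, 1, 3, 2, 2, 2, 2, 1, 4, 3, 3, 2, 2, 2],
    [0, 2, 1, 1, 2, 0, 0, 0, 0, 0, 1, 2, 1, 0, 0, 0, 1, 2, 0, 1, 0, 3, 2, 2, 1, 2, 1, 1, 2, 3, 1, 3, 4, 2, 2, 3, 2],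
    [0, 0, 0, 0, 0, 0, 0, 0, 0, 0, 1, 1, 2, 1, 2, 1, 0, 0, 1, 1, 1, 2, 3, 2, 2, 2, 2, 3, 1, 1, 1, 3, 2, 4, 3, 2, 2],
    [0, 0, 0, 0, 0, 0, 0, 0, 0, 0, 0, 0, 1, 1, 2, 2, 0, 0, 1, 1, 2, 1, 2, 2, 3, 1, 2, 3, 1, 1, 2, 2, 2, 3, 4, 2, 3],
    [0, 1, 1, 0, 1, 0, 0, 0, 0, 0, 1, 1, 1, 0, 0, 0, 1, 2, 1, 2, 1, 2, 2, 3, 2, 1, 1, 1, 2, 3, 2, 2, 3, 2, 2, 4, 3],
    [0, 0, 0, 0, 0, 0, 0, 0, 0, 0, 0, 0, 0, 1, 1, 1, 1, 1, 1, 1, 2, 1, 1, 2, 3, 1, 2, 2, 2, 2, 3, 2, 2, 2, 3, 3, 4]]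

def ct (i j : Fin 37) : ℕ := (ctl.getD i []).getD j 0

def cc (i j : Fin 37) : ℕ := (ccl.getD i []).getD j 0

theorem d_nonneg : ∀ i k, 0 ≤ dot (Fc k) (R i) := by decide +kernel
theorem d_inc : ∀ i k, Ib i k = true ↔ dot (Fc k) (R i) = 0 := by decide +kernel
theorem d_sum : ∀ i, 0 < dot (R i) (fun _ => 1) := by decide +kernel
theorem d_ne : ∀ i, ∃ k, ¬ Ib i k = true := by decide +kernel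
theorem d_cl : ∀ i j, (∀ k, Ib i k = true → Ib j k = true) → j = i := by decide +kernel
theorem d_anti : ∀ k k', (∀ i, Ib i k = true → Ib i k' = true) → k = k' := by decide +kernel
theorem d_fne : ∀ k, ∃ i, Ib i k = true := by decide +kernel
theorem d_prop : ∀ k, ∃ i, ¬ Ib i k = true := by decide +kernel
theorem d_al : ∀ k, al (al k) = k := by decide +kernel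
theorem d_be : ∀ k, be (be k) = k := by decide +kernel
theorem d_dual : ∀ i k, Ib i k = true ↔ Ib (al k) (be i) = true := by decide +kernel
theorem s1_1 : ∀ j a, dot (G1 j) (H1 (sel1 j a)) = 0 := by decide +kernel
theorem s1_2 : ∀ j a b, b ≠ a → dot (G1 (nb1 j a)) (H1 (sel1 j b)) = 0 := by decide +kernel
theorem s1_3 : ∀ j a, 0 < dot (G1 (nb1 j a)) (H1 (sel1 j a)) := by decide +kernel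
theorem s1_4 : ∀ j, 0 < ∑ i, dot (G1 j) (H1 i) := by decide +kernel
theorem s2_1 : ∀ j a, dot (R (idx2 j)) (H2 (sel2 j a)) = 0 := by decide +kernel
theorem s2_2 : ∀ j a b, b ≠ a → dot (R (idx2 (nb2 j a))) (H2 (sel2 j b)) = 0 := by decide +kernel
theorem s2_3 : ∀ j a, 0 < dot (R (idx2 (nb2 j a))) (H2 (sel2 j a)) := by decide +kernel
theorem s2_4 : ∀ j, 0 < ∑ i, dot (R (idx2 j)) (H2 i) := by decide +kernel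
theorem d_ct : ∀ i j, (Finset.univ.filter fun k => Ib i k = true ∧ Ib j k = true).card = ct i j := by
  decide +kernel
theorem d_cc : ∀ i j, (Finset.univ.filter fun k => Ib k i = true ∧ Ib k j = true).card = cc i j := by
  decide +kernel
theorem d_int : ∀ k, 0 < dot (Fc k) (fun a => ∑ i, R i a) := by decide +kernel
theorem d_int2 : 0 < dot (fun a => ∑ i, R i a) (fun _ => 1) := by decide +kernel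

set_option synthInstance.maxSize 100000 in
set_option maxRecDepth 100000 in
theorem search1 :
    ∀ b1 : Fin 37, cc b1 b1 = 14 → 
    ∀ b2 : Fin 37, cc b2 b2 = 14 → cc b1 b2 = 4 → 
    ∀ b3 : Fin 37, cc b3 b3 = 12 → cc b1 b3 = 7 → cc b2 b3 = 6 → 
    ∀ b4 : Fin 37, cc b4 b4 = 12 → cc b1 b4 = 6 → cc b2 b4 = 7 → cc b3 b4 = 4 → 
    ∀ b5 : Fin 37, cc b5 b5 = 12 → cc b1 b5 = 3 → cc b2 b5 = 4 → cc b3 b5 = 5 → cc b4 b5 = 0 → 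
    ∀ b6 : Fin 37, cc b6 b6 = 10 → cc b1 b6 = 5 → cc b2 b6 = 0 → cc b3 b6 = 3 → cc b4 b6 = 0 → cc b5 b6 = 6 → 
    ∀ b8 : Fin 37, cc b8 b8 = 10 → cc b1 b8 = 0 → cc b2 b8 = 5 → cc b3 b8 = 0 → cc b4 b8 = 3 → cc b5 b8 = 5 → cc b6 b8 = 3 → 
    ∀ b9 : Fin 37, cc b9 b9 = 12 → cc b1 b9 = 4 → cc b2 b9 = 3 → cc b3 b9 = 0 → cc b4 b9 = 5 → cc b5 b9 = 3 → cc b6 b9 = 5 → cc b8 b9 = 6 → 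
    ∀ b0 : Fin 37, cc b0 b0 = 12 → cc b1 b0 = 5 → cc b2 b0 = 5 → cc b3 b0 = 4 → cc b4 b0 = 4 → cc b5 b0 = 5 → cc b6 b0 = 4 → cc b8 b0 = 4 → cc b9 b0 = 5 → 
    ∀ b7 : Fin 37, cc b7 b7 = 12 → cc b1 b7 = 5 → cc b2 b7 = 5 → cc b3 b7 = 4 → cc b4 b7 = 4 → cc b5 b7 = 5 → cc b6 b7 = 4 → cc b8 b7 = 4 → cc b9 b7 = 5 → cc b0 b7 = 0 → 
    ((b1 = 1 ∧ b2 = 2 ∧ b3 = 3 ∧ b4 = 4 ∧ b5 = 5 ∧ b6 = 6 ∧ b8 = 8 ∧ b9 = 9) ∨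
     (b1 = 2 ∧ b2 = 1 ∧ b3 = 4 ∧ b4 = 3 ∧ b5 = 9 ∧ b6 = 8 ∧ b8 = 6 ∧ b9 = 5)) ∧
    ((b0 = 0 ∧ b7 = 7) ∨ (b0 = 7 ∧ b7 = 0)) := by
  decide +kernel

set_option synthInstance.maxSize 100000 in
set_option maxRecDepth 100000 in
theorem search2 :
    ∀ b1 : Fin 37, ct b1 b1 = 14 → 
    ∀ b2 : Fin 37, ct b2 b2 = 14 → ct b1 b2 = 4 → 
    ∀ b3 : Fin 37, ct b3 b3 = 12 → ct b1 b3 = 7 → ct b2 b3 = 6 → 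
    ∀ b4 : Fin 37, ct b4 b4 = 12 → ct b1 b4 = 6 → ct b2 b4 = 7 → ct b3 b4 = 4 → 
    ∀ b5 : Fin 37, ct b5 b5 = 12 → ct b1 b5 = 3 → ct b2 b5 = 4 → ct b3 b5 = 5 → ct b4 b5 = 0 → 
    ∀ b6 : Fin 37, ct b6 b6 = 10 → ct b1 b6 = 5 → ct b2 b6 = 0 → ct b3 b6 = 3 → ct b4 b6 = 0 → ct b5 b6 = 6 → 
    ∀ b8 : Fin 37, ct b8 b8 = 10 → ct b1 b8 = 0 → ct b2 b8 = 5 → ct b3 b8 = 0 → ct b4 b8 = 3 → ct b5 b8 = 5 → ct b6 b8 = 3 → 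
    ∀ b9 : Fin 37, ct b9 b9 = 12 → ct b1 b9 = 4 → ct b2 b9 = 3 → ct b3 b9 = 0 → ct b4 b9 = 5 → ct b5 b9 = 3 → ct b6 b9 = 5 → ct b8 b9 = 6 → 
    ∀ b0 : Fin 37, ct b0 b0 = 12 → ct b1 b0 = 5 → ct b2 b0 = 5 → ct b3 b0 = 4 → ct b4 b0 = 4 → ct b5 b0 = 5 → ct b6 b0 = 4 → ct b8 b0 = 4 → ct b9 b0 = 5 → 
    ∀ b7 : Fin 37, ct b7 b7 = 12 → ct b1 b7 = 5 → ct b2 b7 = 5 → ct b3 b7 = 4 → ct b4 b7 = 4 → ct b5 b7 = 5 → ct b6 b7 = 4 → ct b8 b7 = 4 → ct b9 b7 = 5 → ct b0 b7 = 0 → 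
    ((b1 = 1 ∧ b2 = 2 ∧ b3 = 3 ∧ b4 = 4 ∧ b5 = 5 ∧ b6 = 6 ∧ b8 = 8 ∧ b9 = 9) ∨
     (b1 = 2 ∧ b2 = 1 ∧ b3 = 4 ∧ b4 = 3 ∧ b5 = 9 ∧ b6 = 8 ∧ b8 = 6 ∧ b9 = 5)) ∧
    ((b0 = 0 ∧ b7 = 7) ∨ (b0 = 7 ∧ b7 = 0)) := by
  decide +kernel

theorem cases1 (b : Fin 37 → Fin 37) (h : ∀ i j, ct i j = cc (b i) (b j)) :
    ((b 1 = 1 ∧ b 2 = 2 ∧ b 3 = 3 ∧ b 4 = 4 ∧ b 5 = 5 ∧ b 6 = 6 ∧ b 8 = 8 ∧ b 9 = 9) ∨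
     (b 1 = 2 ∧ b 2 = 1 ∧ b 3 = 4 ∧ b 4 = 3 ∧ b 5 = 9 ∧ b 6 = 8 ∧ b 8 = 6 ∧ b 9 = 5)) ∧
    ((b 0 = 0 ∧ b 7 = 7) ∨ (b 0 = 7 ∧ b 7 = 0)) :=
  search1 (b 1) (h 1 1).symm (b 2) (h 2 2).symm (h 1 2).symm (b 3) (h 3 3).symm (h 1 3).symm (h 2 3).symm (b 4) (h 4 4).symm (h 1 4).symm (h 2 4).symm (h 3 4).symm (b 5) (h 5 5).symm (h 1 5).symm (h 2 5).symm (h 3 5).symm (h 4 5).symm (b 6) (h 6 6).symm (h 1 6).symm (h 2 6).symm (h 3 6).symm (h 4 6).symm (h 5 6).symm (b 8) (h 8 8).symm (h 1 8).symm (h 2 8).symm (h 3 8).symm (h 4 8).symm (h 5 8).symm (h 6 8).symm (b 9) (h 9 9).symm (h 1 9).symm (h 2 9).symm (h 3 9).symm (h 4 9).symm (h 5 9).symm (h 6 9).symm (h 8 9).symm (b 0) (h 0 0).symm (h 1 0).symm (h 2 0).symm (h 3 0).symm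 (h 4 0).symm (h 5 0).symm (h 6 0).symm (h 8 0).symm (h 9 0).symm (b 7) (h 7 7).symm (h 1 7).symm (h 2 7).symm (h 3 7).symm (h 4 7).symm (h 5 7).symm (h 6 7).symm (h 8 7).symm (h 9 7).symm (h 0 7).symm

theorem cases2 (b : Fin 37 → Fin 37) (h : ∀ i j, cc i j = ct (b i) (b j)) :
    ((b 1 = 1 ∧ b 2 = 2 ∧ b 3 = 3 ∧ b 4 = 4 ∧ b 5 = 5 ∧ b 6 = 6 ∧ b 8 = 8 ∧ b 9 = 9) ∨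
     (b 1 = 2 ∧ b 2 = 1 ∧ b 3 = 4 ∧ b 4 = 3 ∧ b 5 = 9 ∧ b 6 = 8 ∧ b 8 = 6 ∧ b 9 = 5)) ∧
    ((b 0 = 0 ∧ b 7 = 7) ∨ (b 0 = 7 ∧ b 7 = 0)) :=
  search2 (b 1) (h 1 1).symm (b 2) (h 2 2).symm (h 1 2).symm (b 3) (h 3 3).symm (h 1 3).symm (h 2 3).symm (b 4) (h 4 4).symm (h 1 4).symm (h 2 4).symm (h 3 4).symm (b 5) (h 5 5).symm (h 1 5).symm (h 2 5).symm (h 3 5).symm (h 4 5).symm (b 6) (h 6 6).symm (h 1 6).symm (h 2 6).symm (h 3 6).symm (h 4 6).symm (h 5 6).symm (b 8) (h 8 8).symm (h 1 8).symm (h 2 8).symm (h 3 8).symm (h 4 8).symm (h 5 8).symm (h 6 8).symm (b 9) (h 9 9).symm (h 1 9).symm (h 2 9).symm (h 3 9).symm (h 4 9).symm (h 5 9).symm (h 6 9).symm (h 8 9).symm (b 0) (h 0 0).symm (h 1 0).symm (h 2 0).symm (h 3 0).symm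 (h 4 0).symm (h 5 0).symm (h 6 0).symm (h 8 0).symm (h 9 0).symm (b 7) (h 7 7).symm (h 1 7).symm (h 2 7).symm (h 3 7).symm (h 4 7).symm (h 5 7).symm (h 6 7).symm (h 8 7).symm (h 9 7).symm (h 0 7).symm

end Pool.Agent.H473Z.SP
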