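import Pool.Agent.H473Z.SP.Gen

set_option autoImplicit false

/-!
What a self-polar realisation gives: labelled vertices and a duality of the incidence relation.
-/

namespace Pool.Agent.H473Z.SP

open Set

variable {E : Type*} [NormedAddCommGroup E] [InnerProductSpace ℝ E] [FiniteDimensional ℝ E]

theorem exists_min_gen (T : Finset E) :
    ∃ W : Finset E, convexHull ℝ (W : Set E) = convexHull ℝ (T : Set E) ∧
      ∀ w ∈ W, IsExposed ℝ (convexHull ℝ (T : Set E)) {w} := by
  classical
  obtain ⟨W, hW, hmin⟩ := Finset.exists_min_image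
    (T.powerset.filter fun W : Finset E => convexHull ℝ (W : Set E) = convexHull ℝ (T : Set E))
    Finset.card ⟨T, by simp⟩
  rw [Finset.mem_filter, Finset.mem_powerset] at hW
  refine ⟨W, hW.2, fun x hx => ?_⟩
  have hnot : x ∉ convexHull ℝ ((W.erase x : Finset E) : Set E) := by
    intro hc
    have h1 : convexHull ℝ ((W.erase x : Finset E) : Set E) = convexHull ℝ (T : Set E) := by
      rw [← hW.2]
      apply Subset.antisymm
      · exact convexHull_mono (by simpa using diff_subset)
      · refine convexHull_min ?_ (convex_convexHull ℝ _)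
        intro y hy
        by_cases hyx : y = x
        · rw [hyx]; exact hc
        · exact subset_convexHull ℝ _ (by simpa [hyx] using hy)
    have := hmin (W.erase x) (by
      rw [Finset.mem_filter, Finset.mem_powerset]
      exact ⟨(Finset.erase_subset _ _).trans hW.1, h1⟩)
    rw [Finset.card_erase_of_mem hx] at this
    have := Finset.card_pos.2 ⟨x, hx⟩
    omega
  obtain ⟨f, u, hf1, hf2⟩ := geometric_hahn_banach_closed_point (convex_convexHull ℝ _)
    ((W.erase x).finite_toSet.isClosed_convexHull ℝ) hnot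
  have hlt : ∀ y ∈ W, y ≠ x → f y < f x := fun y hy hyx =>
    (hf1 y (subset_convexHull ℝ _ (by simpa [hyx] using hy))).trans hf2
  have hle : ∀ y ∈ W, f y ≤ f x := fun y hy => by
    by_cases hyx : y = x
    · rw [hyx]
    · exact (hlt y hy hyx).le
  intro _
  refine ⟨f, ?_⟩
  rw [← hW.2]
  have key : ∀ y ∈ convexHull ℝ (W : Set E), f y ≤ f x ∧ (f x ≤ f y → y = x) := by
    intro y hy
    obtain ⟨w, hw0, hw1, hwy⟩ := Finset.mem_convexHull'.1 hy
    have h1 : f x - f y = ∑ z ∈ W, w z * (f x - f z) := by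
      rw [← hwy, map_sum]
      simp only [map_smul, smul_eq_mul, mul_sub, Finset.sum_sub_distrib, ← Finset.sum_mul, hw1,
        one_mul]
    have h2 : ∀ z ∈ W, 0 ≤ w z * (f x - f z) := fun z hz =>
      mul_nonneg (hw0 z hz) (sub_nonneg.2 (hle z hz))
    have h3 := Finset.sum_nonneg h2
    refine ⟨by linarith, fun hxy => ?_⟩
    have h4 : ∑ z ∈ W, w z * (f x - f z) = 0 := by linarith
    rw [Finset.sum_eq_zero_iff_of_nonneg h2] at h4
    have h5 : ∀ z ∈ W, z ≠ x → w z = 0 := by
      intro z hz hzx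
      rcases mul_eq_zero.1 (h4 z hz) with h | h
      · exact h
      · have := hlt z hz hzx; linarith
    rw [Finset.sum_eq_single_of_mem x hx h5] at hw1
    rw [← hwy, Finset.sum_eq_single_of_mem x hx (fun z hz hzx => by rw [h5 z hz hzx, zero_smul]),
      hw1, one_smul]
  ext y
  simp only [mem_singleton_iff, mem_sep_iff]
  constructor
  · rintro rfl
    exact ⟨subset_convexHull ℝ _ hx, fun z hz => (key z hz).1⟩
  · rintro ⟨hy, h⟩
    exact (key y hy).2 (h x (subset_convexHull ℝ _ hx))

theorem extract {ι κ : Type*} [Fintype ι] [Fintype κ] (D : Desc E ι κ)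
    (hcl : ∀ i j, (∀ k, D.I i k → D.I j k) → j = i)
    (hanti : ∀ k k', (∀ i, D.I i k → D.I i k') → k = k')
    (hfne : ∀ k, ∃ i, D.I i k) (hprop : ∀ k, ∃ i, ¬ D.I i k)
    (hcard : Fintype.card κ = Fintype.card ι)
    (T : Finset E) (U : E ≃ₗᵢ[ℝ] E)
    (e : {F : Set E // IsExposed ℝ D.A F} ≃o
      {F : Set E // IsExposed ℝ (convexHull ℝ (T : Set E)) F})
    (h0 : (0 : E) ∈ interior (convexHull ℝ (T : Set E)))
    (hP : {y : E | ∀ x ∈ convexHull ℝ (T : Set E), inner ℝ x y ≤ (1 : ℝ)} =
      U '' convexHull ℝ (T : Set E)) :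
    ∃ (w : ι → E) (σ : κ ≃ ι) (π : ι ≃ ι), (∀ i j, inner ℝ (w i) (U (w j)) ≤ (1 : ℝ)) ∧
      (∀ i k, D.I i k ↔ inner ℝ (w i) (U (w (σ k))) = (1 : ℝ)) ∧
      (∀ j, U (U (w j)) = w (π j)) := by
  classical
  obtain ⟨W, hWT, hWexp⟩ := exists_min_gen T
  set Q : Set E := convexHull ℝ (T : Set E) with hQ
  have hQr : Q = convexHull ℝ (range (Subtype.val : W → E)) := by
    rw [← hWT]; congr 1; ext; simp
  have hvert : ∀ G : Set E, IsExposed ℝ Q G → G.Nonempty → ∃ x ∈ W, x ∈ G := by
    intro G hG hne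
    rw [hQr] at hG
    obtain ⟨x, hx⟩ := exposed_has_vertex _ hG hne
    exact ⟨x.1, x.2, hx⟩
  have hne1 : ∀ G : {F : Set E // IsExposed ℝ D.A F}, G.1.Nonempty → (e G).1.Nonempty := by
    intro G hG
    by_contra hc
    rw [not_nonempty_iff_eq_empty] at hc
    have : e G ≤ e ⟨∅, isExposed_empty⟩ := by
      change (e G).1 ⊆ _
      rw [hc]; exact empty_subset _
    rw [e.le_iff_le] at this
    obtain ⟨x, hx⟩ := hG
    exact this hx
  have hne2 : ∀ G : {F : Set E // IsExposed ℝ Q F}, G.1.Nonempty → (e.symm G).1.Nonempty := by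
    intro G hG
    by_contra hc
    rw [not_nonempty_iff_eq_empty] at hc
    have : e.symm G ≤ e.symm ⟨∅, isExposed_empty⟩ := by
      change (e.symm G).1 ⊆ _
      rw [hc]; exact empty_subset _
    rw [e.symm.le_iff_le] at this
    obtain ⟨x, hx⟩ := hG
    exact this hx
  let P : ι → {F : Set E // IsExposed ℝ D.A F} := fun i => ⟨D.face {i}, D.face_exposed _⟩
  have hPv : ∀ i, D.vset (P i).1 = {i} := by
    intro i
    ext j
    change j ∈ D.vset (D.face {i}) ↔ _
    rw [D.mem_vset_face]
    simp only [mem_singleton_iff, forall_eq]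
    exact ⟨hcl i j, fun h k hk => h ▸ hk⟩
  have hPle : ∀ i (G : {F : Set E // IsExposed ℝ D.A F}), P i ≤ G ↔ D.s i ∈ G.1 := by
    intro i G
    change (P i).1 ⊆ G.1 ↔ _
    rw [D.subset_iff (P i).2 G.2, hPv, singleton_subset_iff]
    rfl
  have hw : ∀ i, ∃ x ∈ W, (e (P i)).1 = {x} := by
    intro i
    obtain ⟨x, hxW, hx⟩ := hvert _ (e (P i)).2 (hne1 _ ⟨D.s i, (hPle i _).1 le_rfl⟩)
    refine ⟨x, hxW, ?_⟩
    let X : {F : Set E // IsExposed ℝ Q F} := ⟨{x}, hWexp x hxW⟩
    have h1 : e.symm X ≤ P i := by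
      rw [← e.le_iff_le, e.apply_symm_apply]
      exact singleton_subset_iff.2 hx
    obtain ⟨j, hj⟩ := exposed_has_vertex D.s (e.symm X).2 (hne2 X ⟨x, rfl⟩)
    have hji : j = i := by
      have : j ∈ D.vset (P i).1 := h1 hj
      rwa [hPv] at this
    subst hji
    have h2 : P j ≤ e.symm X := (hPle _ _).2 hj
    have h3 : e.symm X = P j := le_antisymm h1 h2
    rw [← h3, e.apply_symm_apply]
  choose w hwW hwe using hw
  have hmem : ∀ i (G : {F : Set E // IsExposed ℝ D.A F}), w i ∈ (e G).1 ↔ D.s i ∈ G.1 := by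
    intro i G
    rw [← hPle, ← e.le_iff_le]
    change _ ↔ (e (P i)).1 ⊆ (e G).1
    rw [hwe, singleton_subset_iff]
  have hwinj : Function.Injective w := by
    intro i j hij
    have : w i ∈ (e (P j)).1 := by rw [hwe, hij]; rfl
    rw [hmem] at this
    have : i ∈ D.vset (P j).1 := this
    rwa [hPv] at this
  have hwsurj : ∀ x ∈ W, ∃ i, w i = x := by
    intro x hx
    let X : {F : Set E // IsExposed ℝ Q F} := ⟨{x}, hWexp x hx⟩
    obtain ⟨j, hj⟩ := exposed_has_vertex D.s (e.symm X).2 (hne2 X ⟨x, rfl⟩)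
    have := (hmem j _).2 hj
    rw [e.apply_symm_apply] at this
    exact ⟨j, this⟩
  have hQw : Q = convexHull ℝ (range w) := by
    rw [← hWT]; congr 1; ext x
    constructor
    · intro hx; exact hwsurj x hx
    · rintro ⟨i, rfl⟩; exact hwW i
  have hwQ : ∀ i, w i ∈ Q := fun i => by
    rw [hQw]; exact subset_convexHull ℝ _ (mem_range_self i)
  have hpol : ∀ x ∈ Q, ∀ y ∈ Q, inner ℝ x (U y) ≤ (1 : ℝ) := by
    intro x hx y hy
    have : U y ∈ U '' Q := mem_image_of_mem _ hy
    rw [← hP] at this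
    exact this x hx
  have hpol' : ∀ y : E, (∀ x ∈ Q, inner ℝ x y ≤ (1 : ℝ)) → ∃ z ∈ Q, U z = y := by
    intro y hy
    have : y ∈ U '' Q := by rw [← hP]; exact hy
    exact this
  have h0Q : (0 : E) ∈ Q := interior_subset h0
  -- the zero sets of the columns
  have hZ : ∀ j k, (∀ i, D.I i k → inner ℝ (w i) (U (w j)) = (1 : ℝ)) →
      ∀ i, inner ℝ (w i) (U (w j)) = (1 : ℝ) → D.I i k := by
    intro j k hk
    let H : {F : Set E // IsExposed ℝ Q F} := ⟨{x ∈ Q | inner ℝ x (U (w j)) = (1 : ℝ)}, by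
      rintro ⟨x0, hx0⟩
      refine ⟨innerSL ℝ (U (w j)), ?_⟩
      ext x
      simp only [mem_sep_iff, innerSL_apply_apply, real_inner_comm]
      constructor
      · rintro ⟨hx, h1⟩
        exact ⟨hx, fun y hy => by rw [h1]; exact hpol y hy _ (hwQ j)⟩
      · rintro ⟨hx, h1⟩
        refine ⟨hx, le_antisymm (hpol x hx _ (hwQ j)) ?_⟩
        have := h1 x0 hx0.1
        rwa [hx0.2] at this⟩
    have hH : ∀ i, i ∈ D.vset (e.symm H).1 ↔ inner ℝ (w i) (U (w j)) = (1 : ℝ) := by
      intro i
      change D.s i ∈ (e.symm H).1 ↔ _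
      rw [← hmem, e.apply_symm_apply]
      exact ⟨fun h => h.2, fun h => ⟨hwQ i, h⟩⟩
    have hex : ∃ i, inner ℝ (w i) (U (w j)) ≠ (1 : ℝ) := by
      by_contra hc
      push Not at hc
      rw [hQw] at h0Q
      obtain ⟨a, -, ha1, ha⟩ := (mem_hull_iff w 0).1 h0Q
      have := congrArg (fun x => inner ℝ x (U (w j))) ha
      simp only [sum_inner, inner_smul_left, hc, inner_zero_left] at this
      simp [ha1] at this
    obtain ⟨i0, hi0⟩ := hex
    have : ∃ k', ∀ i, inner ℝ (w i) (U (w j)) = (1 : ℝ) → D.I i k' := by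
      by_contra hc
      push Not at hc
      apply hi0
      rw [← hH]
      apply D.vset_closed (e.symm H).2
      intro k' hk'
      obtain ⟨i, hi, hi'⟩ := hc k'
      exact absurd (hk' i ((hH i).2 hi)) hi'
    obtain ⟨k', hk'⟩ := this
    have hkk : k = k' := hanti k k' fun i hi => hk' i (hk i hi)
    rw [hkk]; exact hk'
  have hσ : ∀ k, ∃ j, ∀ i, D.I i k ↔ inner ℝ (w i) (U (w j)) = (1 : ℝ) := by
    intro k
    let Φ : {F : Set E // IsExposed ℝ D.A F} := ⟨D.face {i | D.I i k}, D.face_exposed _⟩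
    have hΦ : ∀ i, w i ∈ (e Φ).1 ↔ D.I i k := by
      intro i
      rw [hmem]
      change i ∈ D.vset (D.face {i | D.I i k}) ↔ _
      rw [D.mem_vset_face]
      exact ⟨fun h => h k fun j hj => hj, fun h k' hk' => hk' i h⟩
    obtain ⟨i0, hi0⟩ := hfne k
    obtain ⟨i1, hi1⟩ := hprop k
    obtain ⟨l, hl⟩ := (e Φ).2 ⟨w i0, (hΦ i0).2 hi0⟩
    have hmax : ∀ i, D.I i k → ∀ y ∈ Q, l y ≤ l (w i) := by
      intro i hi
      have := (hΦ i).2 hi
      rw [hl] at this
      exact this.2
    let v : E := (InnerProductSpace.toDual ℝ E).symm l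
    have hv : ∀ x, inner ℝ x v = l x := by
      intro x
      rw [real_inner_comm]
      exact InnerProductSpace.toDual_symm_apply
    have hm : 0 < l (w i0) := by
      have h1 := hmax i0 hi0 0 h0Q
      rw [map_zero] at h1
      refine lt_of_le_of_ne h1 fun h2 => ?_
      have hc : Continuous fun t : ℝ => t • v := by fun_prop
      have h3 : ∀ᶠ t : ℝ in nhds 0, t • v ∈ Q := by
        have : Q ∈ nhds ((0 : ℝ) • v) := by
          rw [zero_smul]; exact mem_interior_iff_mem_nhds.1 h0
        exact (hc.tendsto 0).eventually this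
      obtain ⟨t, ht, ht0⟩ :=
        ((h3.filter_mono (nhdsWithin_le_nhds (s := Ioi 0))).and self_mem_nhdsWithin).exists
      have ht0' : (0 : ℝ) < t := ht0
      have h4 := hmax i0 hi0 _ ht
      rw [← h2, map_smul, ← hv, smul_eq_mul] at h4
      have h5 : inner ℝ v v ≤ (0 : ℝ) := by
        by_contra hc
        push Not at hc
        have := mul_pos ht0' hc
        linarith
      have h6 : v = 0 := by
        have := real_inner_self_nonneg (x := v)
        exact inner_self_eq_zero.1 (le_antisymm h5 this)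
      apply hi1
      rw [← hΦ, hl]
      refine ⟨hwQ i1, fun y _ => ?_⟩
      rw [← hv, ← hv, h6]; simp
    obtain ⟨z, hz, hzU⟩ := hpol' ((l (w i0))⁻¹ • v) (by
      intro x hx
      rw [inner_smul_right, hv, inv_mul_le_iff₀ hm, mul_one]
      exact hmax i0 hi0 x hx)
    rw [hQw] at hz
    obtain ⟨a, ha0, ha1, ha⟩ := (mem_hull_iff w z).1 hz
    obtain ⟨j, hj⟩ : ∃ j, a j ≠ 0 := by
      by_contra hc
      push Not at hc
      simp [hc] at ha1
    have hsub : ∀ i, D.I i k → inner ℝ (w i) (U (w j)) = (1 : ℝ) := by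
      intro i hi
      have h1 : inner ℝ (w i) (U z) = (1 : ℝ) := by
        rw [hzU, inner_smul_right, hv]
        have : l (w i) = l (w i0) :=
          le_antisymm (hmax i0 hi0 _ (hwQ i)) (hmax i hi _ (hwQ i0))
        rw [this]; field_simp
      have h2 : ∑ j, a j * (1 - inner ℝ (w i) (U (w j))) = 0 := by
        rw [← ha, map_sum, inner_sum] at h1
        simp only [map_smul, inner_smul_right] at h1
        simp only [mul_sub, mul_one, Finset.sum_sub_distrib, ha1]
        linarith
      rw [Finset.sum_eq_zero_iff_of_nonneg fun j _ =>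
        mul_nonneg (ha0 j) (sub_nonneg.2 (hpol _ (hwQ i) _ (hwQ j)))] at h2
      rcases mul_eq_zero.1 (h2 j (Finset.mem_univ j)) with h | h
      · exact absurd h hj
      · linarith
    exact ⟨j, fun i => ⟨hsub i, hZ j k hsub i⟩⟩
  choose σ hσ using hσ
  have hσinj : Function.Injective σ := by
    intro k k' h
    apply hanti
    intro i hi
    rw [hσ, ← h, ← hσ]; exact hi
  have hσbij : Function.Bijective σ :=
    (Fintype.bijective_iff_injective_and_card σ).2 ⟨hσinj, hcard⟩
  -- the square of U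
  have hUU : ∀ x ∈ Q, U (U x) ∈ Q := by
    intro x hx
    by_contra hc
    obtain ⟨f, u, hf1, hf2⟩ := geometric_hahn_banach_closed_point (convex_convexHull ℝ _)
      (T.finite_toSet.isClosed_convexHull ℝ) hc
    have hu : 0 < u := by simpa using hf1 0 h0Q
    let v : E := (InnerProductSpace.toDual ℝ E).symm f
    have hv : ∀ x, inner ℝ x v = f x := by
      intro x
      rw [real_inner_comm]
      exact InnerProductSpace.toDual_symm_apply
    obtain ⟨z, hz, hzU⟩ := hpol' (u⁻¹ • v) (by
      intro y hy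
      rw [inner_smul_right, hv, inv_mul_le_iff₀ hu, mul_one]
      exact (hf1 y hy).le)
    have h1 := hpol z hz x hx
    rw [← U.inner_map_map, hzU, real_inner_comm, inner_smul_right, hv, inv_mul_le_iff₀ hu,
      mul_one] at h1
    linarith
  have hUU' : ∀ x ∈ Q, U.symm (U.symm x) ∈ Q := by
    intro x hx
    obtain ⟨z, hz, hzU⟩ := hpol' (U.symm x) (by
      intro y hy
      rw [← U.inner_map_map, U.apply_symm_apply, real_inner_comm]
      exact hpol x hx y hy)
    rw [← hzU, U.symm_apply_apply]; exact hz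
  have hπ : ∀ j, ∃ i, U (U (w j)) = w i := by
    intro j
    have hexp : IsExposed ℝ Q {U (U (w j))} := by
      obtain ⟨l, hl⟩ := hWexp _ (hwW j) ⟨_, rfl⟩
      intro _
      refine ⟨l.comp ((U.symm.toContinuousLinearEquiv : E →L[ℝ] E).comp
        (U.symm.toContinuousLinearEquiv : E →L[ℝ] E)), ?_⟩
      have hl' : ∀ x, x = w j ↔ x ∈ Q ∧ ∀ y ∈ Q, l y ≤ l x := fun x => by
        have := Set.ext_iff.1 hl x
        simpa using this
      ext x
      simp only [mem_singleton_iff, mem_sep_iff, ContinuousLinearMap.comp_apply,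
        ContinuousLinearEquiv.coe_coe, LinearIsometryEquiv.coe_toContinuousLinearEquiv]
      constructor
      · rintro rfl
        refine ⟨hUU _ (hwQ j), fun y hy => ?_⟩
        simp only [LinearIsometryEquiv.symm_apply_apply]
        exact ((hl' _).1 rfl).2 _ (hUU' y hy)
      · rintro ⟨hx, h⟩
        have : U.symm (U.symm x) = w j := by
          rw [hl']
          refine ⟨hUU' x hx, fun y hy => ?_⟩
          have := h _ (hUU y hy)
          simpa using this
        rw [← this]; simp
    obtain ⟨x, hxW, hx⟩ := hvert _ hexp ⟨_, rfl⟩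
    obtain ⟨i, hi⟩ := hwsurj x hxW
    exact ⟨i, by rw [hi]; exact hx.symm⟩
  choose π hπ using hπ
  have hπinj : Function.Injective π := by
    intro i j h
    apply hwinj
    apply U.injective
    apply U.injective
    rw [hπ, hπ, h]
  exact ⟨w, Equiv.ofBijective σ hσbij,
    Equiv.ofBijective π (Finite.injective_iff_bijective.1 hπinj),
    fun i j => hpol _ (hwQ i) _ (hwQ j), fun i k => hσ k i, hπ⟩

end Pool.Agent.H473Z.SP
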