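import Mathlib

set_option autoImplicit false

/-!
Polytopes given by vertices and inequalities at once: the lattice of exposed faces.
-/

namespace Pool.Agent.H473Z.SP

open Set

variable {E : Type*} [NormedAddCommGroup E] [NormedSpace ℝ E]

theorem mem_hull_iff {ι : Type*} [Fintype ι] (s : ι → E) (x : E) :
    x ∈ convexHull ℝ (range s) ↔
      ∃ w : ι → ℝ, (∀ i, 0 ≤ w i) ∧ ∑ i, w i = 1 ∧ ∑ i, w i • s i = x := by
  classical
  constructor
  · intro hx
    have hc : Convex ℝ {x : E | ∃ w : ι → ℝ, (∀ i, 0 ≤ w i) ∧ ∑ i, w i = 1 ∧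
        ∑ i, w i • s i = x} := by
      rintro x ⟨w, hw0, hw1, rfl⟩ y ⟨v, hv0, hv1, rfl⟩ a b ha hb hab
      refine ⟨fun i => a * w i + b * v i, fun i => by have := hw0 i; have := hv0 i; positivity,
        ?_, ?_⟩
      · rw [Finset.sum_add_distrib, ← Finset.mul_sum, ← Finset.mul_sum, hw1, hv1]; linarith
      · simp only [add_smul, mul_smul, Finset.sum_add_distrib, Finset.smul_sum]
    refine convexHull_min ?_ hc hx
    rintro _ ⟨i, rfl⟩
    refine ⟨Pi.single i 1, fun j => ?_, by simp, ?_⟩
    · by_cases h : j = i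
      · subst h; simp
      · simp [h]
    · rw [Finset.sum_eq_single i] <;> simp +contextual [Pi.single_apply]
  · rintro ⟨w, hw0, hw1, rfl⟩
    exact (convex_convexHull ℝ _).sum_mem (fun i _ => hw0 i) hw1
      (fun i _ => subset_convexHull ℝ _ (mem_range_self i))

theorem exposed_weights {ι : Type*} [Fintype ι] (s : ι → E) {G : Set E}
    (hG : IsExposed ℝ (convexHull ℝ (range s)) G) {x : E} (hx : x ∈ G) :
    ∃ w : ι → ℝ, (∀ i, 0 ≤ w i) ∧ ∑ i, w i = 1 ∧ ∑ i, w i • s i = x ∧
      ∀ i, w i ≠ 0 → s i ∈ G := by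
  obtain ⟨l, hl⟩ := hG ⟨x, hx⟩
  have hx' := hx
  rw [hl] at hx'
  obtain ⟨w, hw0, hw1, hwx⟩ := (mem_hull_iff s x).1 hx'.1
  refine ⟨w, hw0, hw1, hwx, fun i hi => ?_⟩
  have hs : ∀ j, s j ∈ convexHull ℝ (range s) := fun j => subset_convexHull ℝ _ (mem_range_self j)
  have h1 : ∑ j, w j * (l x - l (s j)) = 0 := by
    have : l x = ∑ j, w j * l (s j) := by
      rw [← hwx, map_sum]; simp
    simp only [mul_sub, Finset.sum_sub_distrib, ← Finset.sum_mul, hw1]
    linarith
  rw [Finset.sum_eq_zero_iff_of_nonneg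
    (fun j _ => mul_nonneg (hw0 j) (sub_nonneg.2 (hx'.2 _ (hs j))))] at h1
  have h2 := h1 i (Finset.mem_univ i)
  have h3 : l x - l (s i) = 0 := by
    rcases mul_eq_zero.1 h2 with h | h
    · exact absurd h hi
    · exact h
  rw [hl]
  refine ⟨hs i, fun y hy => ?_⟩
  have := hx'.2 y hy
  linarith

theorem exposed_has_vertex {ι : Type*} [Fintype ι] (s : ι → E) {G : Set E}
    (hG : IsExposed ℝ (convexHull ℝ (range s)) G) (hne : G.Nonempty) : ∃ i, s i ∈ G := by
  obtain ⟨x, hx⟩ := hne
  obtain ⟨w, -, hw1, -, h⟩ := exposed_weights s hG hx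
  by_contra hc
  push Not at hc
  have : ∀ i, w i = 0 := fun i => by
    by_contra h0
    exact hc i (h i h0)
  simp [this] at hw1

/-- A polytope described by points and by inequalities. -/
structure Desc (E : Type*) [NormedAddCommGroup E] [NormedSpace ℝ E] (ι κ : Type*) where
  s : ι → E
  l : κ → E →L[ℝ] ℝ
  c : κ → ℝ
  I : ι → κ → Prop
  hA : convexHull ℝ (range s) = {x | ∀ k, 0 ≤ c k + l k x}
  hI : ∀ i k, I i k ↔ c k + l k (s i) = 0
  hne : ∀ i, ∃ k, ¬ I i k

namespace Desc

variable {ι κ : Type*} [Fintype ι] [Fintype κ] (D : Desc E ι κ)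

def A : Set E := convexHull ℝ (range D.s)

def face (X : Set ι) : Set E := {x ∈ D.A | ∀ k, (∀ i ∈ X, D.I i k) → D.c k + D.l k x = 0}

def vset (G : Set E) : Set ι := {i | D.s i ∈ G}

omit [Fintype ι] [Fintype κ] in
theorem s_mem (i : ι) : D.s i ∈ D.A := subset_convexHull ℝ _ (mem_range_self i)

omit [Fintype ι] [Fintype κ] in
theorem nonneg {x : E} (hx : x ∈ D.A) (k : κ) : 0 ≤ D.c k + D.l k x := by
  have : x ∈ {x | ∀ k, 0 ≤ D.c k + D.l k x} := by rw [← D.hA]; exact hx
  exact this k

omit [Fintype ι] in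
theorem face_exposed (X : Set ι) : IsExposed ℝ D.A (D.face X) := by
  classical
  rintro ⟨x0, hx0⟩
  let K : Finset κ := Finset.univ.filter fun k => ∀ i ∈ X, D.I i k
  have hK : ∀ k, k ∈ K ↔ ∀ i ∈ X, D.I i k := by intro k; simp [K]
  refine ⟨-∑ k ∈ K, D.l k, ?_⟩
  have key : ∀ x, (-∑ k ∈ K, D.l k) x = ∑ k ∈ K, D.c k - ∑ k ∈ K, (D.c k + D.l k x) := by
    intro x
    simp [Finset.sum_add_distrib, ContinuousLinearMap.sum_apply]
  have h0 : ∀ x ∈ D.face X, ∑ k ∈ K, (D.c k + D.l k x) = 0 := fun x hx =>
    Finset.sum_eq_zero fun k hk => hx.2 k ((hK k).1 hk)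
  ext x
  constructor
  · intro hx
    refine ⟨hx.1, fun y hy => ?_⟩
    rw [key, key, h0 x hx]
    have : 0 ≤ ∑ k ∈ K, (D.c k + D.l k y) := Finset.sum_nonneg fun k _ => D.nonneg hy k
    linarith
  · rintro ⟨hx, h⟩
    refine ⟨hx, fun k hk => ?_⟩
    have h1 := h x0 hx0.1
    rw [key, key, h0 x0 hx0] at h1
    have h2 : ∑ k ∈ K, (D.c k + D.l k x) = 0 :=
      le_antisymm (by linarith) (Finset.sum_nonneg fun k _ => D.nonneg hx k)
    rw [Finset.sum_eq_zero_iff_of_nonneg fun k _ => D.nonneg hx k] at h2
    exact h2 k ((hK k).2 hk)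

omit [Fintype ι] [Fintype κ] in
theorem mem_vset_face (X : Set ι) (i : ι) :
    i ∈ D.vset (D.face X) ↔ ∀ k, (∀ j ∈ X, D.I j k) → D.I i k := by
  simp only [vset, face, mem_setOf_eq, D.s_mem, true_and, D.hI i]

omit [Fintype κ] in
theorem eval_sum (w : ι → ℝ) (hw1 : ∑ i, w i = 1) (k : κ) :
    D.c k + D.l k (∑ i, w i • D.s i) = ∑ i, w i * (D.c k + D.l k (D.s i)) := by
  simp only [map_sum, map_smul, smul_eq_mul, mul_add, Finset.sum_add_distrib, ← Finset.sum_mul,
    hw1, one_mul]

theorem eq_face {G : Set E} (hG : IsExposed ℝ D.A G) : G = D.face (D.vset G) := by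
  classical
  apply Subset.antisymm
  · intro x hx
    refine ⟨hG.subset hx, fun k hk => ?_⟩
    obtain ⟨w, -, hw1, hwx, h⟩ := exposed_weights D.s hG hx
    rw [← hwx, D.eval_sum w hw1]
    refine Finset.sum_eq_zero fun i _ => ?_
    by_cases hi : w i = 0
    · simp [hi]
    · rw [(D.hI i k).1 (hk i (h i hi)), mul_zero]
  · intro y hy
    by_cases hne : G.Nonempty
    · obtain ⟨i0, hi0⟩ := exposed_has_vertex D.s hG hne
      obtain ⟨l, hl⟩ := hG hne
      let V : Finset ι := Finset.univ.filter fun i => D.s i ∈ G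
      have hV : ∀ i, i ∈ V ↔ D.s i ∈ G := by intro i; simp [V]
      have hVc : (0 : ℝ) < V.card := by
        exact_mod_cast Finset.card_pos.2 ⟨i0, (hV i0).2 hi0⟩
      let w : ι → ℝ := fun i => if i ∈ V then (V.card : ℝ)⁻¹ else 0
      have hw0 : ∀ i, 0 ≤ w i := by
        intro i; simp only [w]; split_ifs
        · positivity
        · exact le_rfl
      have hw1 : ∑ i, w i = 1 := by
        simp only [w]
        rw [Finset.sum_ite_mem, Finset.univ_inter, Finset.sum_const, nsmul_eq_mul]
        field_simp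
      let b : E := ∑ i, w i • D.s i
      have hGconv : Convex ℝ G := by
        have : IsExposed ℝ D.A G := fun _ => ⟨l, hl⟩
        exact this.convex (convex_convexHull ℝ _)
      have hb : b ∈ G := by
        have : b = ∑ i ∈ V, w i • D.s i := by
          simp only [b]
          symm
          apply Finset.sum_subset (Finset.subset_univ _)
          intro i _ hi
          simp [w, hi]
        rw [this]
        refine hGconv.sum_mem (fun i _ => hw0 i) ?_ (fun i hi => (hV i).1 hi)
        rw [← hw1]
        apply Finset.sum_subset (Finset.subset_univ _)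
        intro i _ hi
        simp [w, hi]
      have hbpos : ∀ k, ¬ (∀ i ∈ D.vset G, D.I i k) → 0 < D.c k + D.l k b := by
        intro k hk
        push Not at hk
        obtain ⟨i, hi, hik⟩ := hk
        simp only [b]
        rw [D.eval_sum w hw1]
        refine Finset.sum_pos' (fun j _ => mul_nonneg (hw0 j) (D.nonneg (D.s_mem j) k))
          ⟨i, Finset.mem_univ i, mul_pos ?_ ?_⟩
        · have : i ∈ V := (hV i).2 hi
          simp only [w, this, if_true]; positivity
        · exact lt_of_le_of_ne (D.nonneg (D.s_mem i) k) fun h => hik ((D.hI i k).2 h.symm)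
      have hbz : ∀ k, (∀ i ∈ D.vset G, D.I i k) → D.c k + D.l k b = 0 := by
        intro k hk
        simp only [b]
        rw [D.eval_sum w hw1]
        refine Finset.sum_eq_zero fun i _ => ?_
        by_cases hi : i ∈ V
        · rw [(D.hI i k).1 (hk i ((hV i).1 hi)), mul_zero]
        · simp [w, hi]
      have hev : ∀ᶠ t : ℝ in nhdsWithin 0 (Ioi 0), ∀ k, 0 ≤ D.c k + D.l k (b + t • (b - y)) := by
        rw [Filter.eventually_all]
        intro k
        by_cases hk : ∀ i ∈ D.vset G, D.I i k
        · refine Filter.Eventually.of_forall fun t => ?_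
          have h1 := hbz k hk
          have h2 := hy.2 k hk
          simp only [map_add, map_smul, map_sub, smul_eq_mul]
          have : D.l k b - D.l k y = 0 := by linarith
          rw [this]; linarith
        · have hc : Continuous fun t : ℝ => D.c k + D.l k (b + t • (b - y)) := by fun_prop
          have h0 : 0 < D.c k + D.l k (b + (0 : ℝ) • (b - y)) := by simpa using hbpos k hk
          have := (hc.tendsto 0).eventually (lt_mem_nhds h0)
          exact (this.filter_mono nhdsWithin_le_nhds).mono fun t ht => ht.le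
      obtain ⟨t, ht, ht0⟩ := (hev.and self_mem_nhdsWithin).exists
      have hmem : b + t • (b - y) ∈ D.A := by
        have : b + t • (b - y) ∈ {x | ∀ k, 0 ≤ D.c k + D.l k x} := ht
        rw [← D.hA] at this; exact this
      rw [hl] at hb ⊢
      refine ⟨hy.1, fun z hz => ?_⟩
      have h1 := hb.2 _ hmem
      have h2 := hb.2 z hz
      simp only [map_add, map_smul, map_sub, smul_eq_mul] at h1
      have ht0' : (0 : ℝ) < t := ht0
      have : l b - l y ≤ 0 := by
        by_contra hc
        push Not at hc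
        have := mul_pos ht0' hc
        linarith
      linarith
    · exfalso
      obtain ⟨w, hw0, hw1, hwx⟩ := (mem_hull_iff D.s y).1 hy.1
      have : ∀ i, w i = 0 := by
        intro i
        obtain ⟨k, hk⟩ := D.hne i
        have h1 := hy.2 k (fun j hj => absurd ⟨_, hj⟩ hne)
        rw [← hwx, D.eval_sum w hw1, Finset.sum_eq_zero_iff_of_nonneg
          (fun j _ => mul_nonneg (hw0 j) (D.nonneg (D.s_mem j) k))] at h1
        rcases mul_eq_zero.1 (h1 i (Finset.mem_univ i)) with h | h
        · exact h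
        · exact absurd ((D.hI i k).2 h) hk
      simp [this] at hw1

omit [Fintype ι] [Fintype κ] in
theorem face_mono {X Y : Set ι} (h : X ⊆ Y) : D.face X ⊆ D.face Y :=
  fun _ hx => ⟨hx.1, fun k hk => hx.2 k fun i hi => hk i (h hi)⟩

theorem subset_iff {G H : Set E} (hG : IsExposed ℝ D.A G) (hH : IsExposed ℝ D.A H) :
    G ⊆ H ↔ D.vset G ⊆ D.vset H := by
  constructor
  · intro h i hi; exact h hi
  · intro h
    rw [D.eq_face hG, D.eq_face hH]
    exact D.face_mono h

theorem vset_closed {G : Set E} (hG : IsExposed ℝ D.A G) (i : ι)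
    (h : ∀ k, (∀ j ∈ D.vset G, D.I j k) → D.I i k) : i ∈ D.vset G := by
  rw [D.eq_face hG, D.mem_vset_face]
  exact h

/-- A duality of the incidence relation gives an anti-automorphism of the face lattice. -/
theorem selfdual (α : κ ≃ ι) (β : ι ≃ κ) (h : ∀ i k, D.I i k ↔ D.I (α k) (β i)) :
    Nonempty ({F : Set E // IsExposed ℝ D.A F} ≃o ({F : Set E // IsExposed ℝ D.A F})ᵒᵈ) := by
  let up : Set E → Set ι := fun G => {j | ∀ i ∈ D.vset G, D.I i (α.symm j)}
  have hv : ∀ G, D.vset (D.face (up G)) = up G := by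
    intro G
    ext j
    rw [D.mem_vset_face]
    constructor
    · intro hj i hi
      rw [h, α.apply_symm_apply]
      apply hj
      intro j' hj'
      have := hj' i hi
      rwa [h, α.apply_symm_apply] at this
    · intro hj k hk
      exact hk j hj
  let f : {F : Set E // IsExposed ℝ D.A F} → ({F : Set E // IsExposed ℝ D.A F})ᵒᵈ :=
    fun G => OrderDual.toDual ⟨D.face (up G.1), D.face_exposed _⟩
  have hf : ∀ G H, f G ≤ f H ↔ G ≤ H := by
    intro G H
    change D.face (up H.1) ⊆ D.face (up G.1) ↔ G.1 ⊆ H.1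
    rw [D.subset_iff (D.face_exposed _) (D.face_exposed _), hv, hv, D.subset_iff G.2 H.2]
    constructor
    · intro hh i hi
      apply D.vset_closed H.2
      intro k hk
      have : α k ∈ up H.1 := by
        intro i' hi'
        rw [α.symm_apply_apply]; exact hk i' hi'
      have := hh this i hi
      rwa [α.symm_apply_apply] at this
    · intro hh j hj i hi
      exact hj i (hh hi)
  have hsurj : Function.Surjective f := by
    intro H
    let X : Set ι := {i | ∀ j ∈ D.vset (OrderDual.ofDual H).1, D.I i (α.symm j)}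
    have hX : D.vset (D.face X) = X := by
      ext i
      rw [D.mem_vset_face]
      constructor
      · intro hi j hj
        exact hi _ fun i' hi' => hi' j hj
      · intro hi k hk
        exact hk i hi
    refine ⟨⟨D.face X, D.face_exposed _⟩, ?_⟩
    apply congrArg OrderDual.toDual
    apply Subtype.ext
    change D.face (up (D.face X)) = (OrderDual.ofDual H).1
    have : up (D.face X) = D.vset (OrderDual.ofDual H).1 := by
      ext j
      simp only [up, hX, mem_setOf_eq]
      constructor
      · intro hj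
        apply D.vset_closed (OrderDual.ofDual H).2
        intro k hk
        obtain ⟨i, rfl⟩ := β.surjective k
        have hi : i ∈ X := by
          intro j' hj'
          rw [h, α.apply_symm_apply]; exact hk j' hj'
        have := hj i hi
        rwa [h, α.apply_symm_apply] at this
      · intro hj i hi
        exact hi j hj
    rw [this]
    exact (D.eq_face (OrderDual.ofDual H).2).symm
  exact ⟨RelIso.ofSurjective (OrderEmbedding.ofMapLEIff f hf) hsurj⟩

end Desc

end Pool.Agent.H473Z.SP
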