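import Mathlib

set_option autoImplicit false

/-!
A ten-vertex configuration in dimension five has no realisation symmetric under the involution
(1 2)(3 4)(5 9)(6 8).
-/

namespace Pool.Agent.H473Z.SP

variable {V : Type*} [AddCommGroup V] [Module ℝ V]

theorem six_dep [FiniteDimensional ℝ V] (hV : Module.finrank ℝ V = 5) (x0 x1 x2 x3 x4 x5 : V) :
    ∃ c0 c1 c2 c3 c4 c5 : ℝ, c0 • x0 + c1 • x1 + c2 • x2 + c3 • x3 + c4 • x4 + c5 • x5 = 0 ∧
      ¬ (c0 = 0 ∧ c1 = 0 ∧ c2 = 0 ∧ c3 = 0 ∧ c4 = 0 ∧ c5 = 0) := by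
  have : ¬ LinearIndependent ℝ ![x0, x1, x2, x3, x4, x5] := by
    intro h
    have := h.fintype_card_le_finrank
    simp [hV] at this
  rw [Fintype.not_linearIndependent_iff] at this
  obtain ⟨g, hg, i, hi⟩ := this
  refine ⟨g 0, g 1, g 2, g 3, g 4, g 5, ?_, ?_⟩
  · simpa [Fin.sum_univ_six] using hg
  · rintro ⟨h0, h1, h2, h3, h4, h5⟩
    apply hi
    fin_cases i <;> assumption

/-- A supporting functional vanishing exactly on four of the ten vectors. -/
def Fac (v : Fin 10 → V) (a b c d : Fin 10) : Prop :=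
  ∃ f : V →ₗ[ℝ] ℝ, ∀ i, (i = a ∨ i = b ∨ i = c ∨ i = d → f (v i) = 0) ∧
    (¬ (i = a ∨ i = b ∨ i = c ∨ i = d) → 0 < f (v i))

theorem opp {a b x y : ℝ} (hx : 0 < x) (hy : 0 < y) (h : a * x + b * y = 0) :
    (0 < a → b < 0) ∧ (a = 0 → b = 0) ∧ (a < 0 → 0 < b) ∧ (0 < b → a < 0) ∧ (b = 0 → a = 0) ∧
      (b < 0 → 0 < a) := by
  refine ⟨fun ha => ?_, fun ha => ?_, fun ha => ?_, fun ha => ?_, fun ha => ?_, fun ha => ?_⟩
  · by_contra hc; push Not at hc; linarith [mul_pos ha hx, mul_nonneg hc hy.le]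
  · rw [ha] at h; simpa [hy.ne'] using h
  · by_contra hc; push Not at hc; linarith [mul_pos (neg_pos.2 ha) hx, mul_nonneg (neg_nonneg.2 hc) hy.le]
  · by_contra hc; push Not at hc; linarith [mul_pos ha hy, mul_nonneg hc hx.le]
  · rw [ha] at h; simpa [hx.ne'] using h
  · by_contra hc; push Not at hc; linarith [mul_pos (neg_pos.2 ha) hy, mul_nonneg (neg_nonneg.2 hc) hx.le]

theorem no_sym [FiniteDimensional ℝ V] (hV : Module.finrank ℝ V = 5) (v : Fin 10 → V)
    (T : V →ₗ[ℝ] V) (t0 : T (v 0) = v 0) (t1 : T (v 1) = v 2) (t2 : T (v 2) = v 1)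
    (t3 : T (v 3) = v 4) (t4 : T (v 4) = v 3) (t5 : T (v 5) = v 9) (t6 : T (v 6) = v 8)
    (t7 : T (v 7) = v 7) (t8 : T (v 8) = v 6) (t9 : T (v 9) = v 5)
    (f0123 : Fac v 0 1 2 3) (f1347 : Fac v 1 3 4 7)
    (f5678 : Fac v 5 6 7 8) (f5689 : Fac v 5 6 8 9) (f0569 : Fac v 0 5 6 9)
    (f1356 : Fac v 1 3 5 6) (f0136 : Fac v 0 1 3 6) (f0356 : Fac v 0 3 5 6)
    (f1357 : Fac v 1 3 5 7) (f1567 : Fac v 1 5 6 7) : False := by
  have ex : ∀ {a b c d : Fin 10}, Fac v a b c d → ∃ f : V →ₗ[ℝ] ℝ,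
      (∀ i, i = a ∨ i = b ∨ i = c ∨ i = d → f (v i) = 0) ∧
      (∀ i, ¬ (i = a ∨ i = b ∨ i = c ∨ i = d) → 0 < f (v i)) := by
    rintro a b c d ⟨f, hf⟩
    exact ⟨f, fun i => (hf i).1, fun i => (hf i).2⟩
  obtain ⟨A, Az, Ap⟩ := ex f0123
  obtain ⟨B, Bz, Bp⟩ := ex f1347
  obtain ⟨C, Cz, Cp⟩ := ex f5678
  obtain ⟨D, Dz, Dp⟩ := ex f5689
  obtain ⟨E, Ez, Ep⟩ := ex f0569
  -- four fixed vectors are dependent
  have four : ∀ x0 x1 x2 x3 : V, T x0 = x0 → T x1 = x1 → T x2 = x2 → T x3 = x3 →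
      ∃ c0 c1 c2 c3 : ℝ, c0 • x0 + c1 • x1 + c2 • x2 + c3 • x3 = 0 ∧
        ¬ (c0 = 0 ∧ c1 = 0 ∧ c2 = 0 ∧ c3 = 0) := by
    intro x0 x1 x2 x3 h0 h1 h2 h3
    obtain ⟨c0, c1, c2, c3, c4, c5, hc, hne⟩ := six_dep hV x0 x1 x2 x3 (v 1 - v 2) (v 3 - v 4)
    have hT := congrArg T hc
    simp only [map_add, map_smul, map_sub, h0, h1, h2, h3, t1, t2, t3, t4, map_zero] at hT
    have e1 : c0 • x0 + c1 • x1 + c2 • x2 + c3 • x3 = 0 := by
      have : (2 : ℝ) • (c0 • x0 + c1 • x1 + c2 • x2 + c3 • x3) = 0 := by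
        rw [← add_zero (0 : V)]
        nth_rewrite 1 [← hc]
        rw [← hT]
        module
      exact (smul_eq_zero.1 this).resolve_left two_ne_zero
    have e2 : c4 • (v 1 - v 2) + c5 • (v 3 - v 4) = 0 := by
      rw [← hc, add_assoc (c0 • x0 + c1 • x1 + c2 • x2 + c3 • x3), e1, zero_add]
    refine ⟨c0, c1, c2, c3, e1, ?_⟩
    rintro ⟨h0, h1, h2, h3⟩
    apply hne
    have a1 := congrArg A e2
    have b1 := congrArg B e2
    simp only [map_add, map_smul, map_sub, map_zero, smul_eq_mul, Az 1 (by decide),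
      Az 2 (by decide), Az 3 (by decide), Bz 1 (by decide), Bz 3 (by decide),
      Bz 4 (by decide)] at a1 b1
    have := Ap 4 (by decide)
    have := Bp 2 (by decide)
    refine ⟨h0, h1, h2, h3, ?_, ?_⟩
    · have : c4 * B (v 2) = 0 := by linarith
      rcases mul_eq_zero.1 this with h | h
      · exact h
      · linarith
    · have : c5 * A (v 4) = 0 := by linarith
      rcases mul_eq_zero.1 this with h | h
      · exact h
      · linarith
  set p := v 1 + v 2 with hp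
  set q := v 3 + v 4 with hq
  set r := v 5 + v 9 with hr
  set s := v 6 + v 8 with hs
  have Tp : T p = p := by rw [hp, map_add, t1, t2, add_comm]
  have Tq : T q = q := by rw [hq, map_add, t3, t4, add_comm]
  have Tr : T r = r := by rw [hr, map_add, t5, t9, add_comm]
  have Ts : T s = s := by rw [hs, map_add, t6, t8, add_comm]
  -- values
  have A0 : A (v 0) = 0 := Az 0 (by decide)
  have Ap' : A p = 0 := by rw [hp, map_add, Az 1 (by decide), Az 2 (by decide), add_zero]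
  have Aq : 0 < A q := by
    rw [hq, map_add, Az 3 (by decide), zero_add]; exact Ap 4 (by decide)
  have Ar : 0 < A r := by
    rw [hr, map_add]; exact add_pos (Ap 5 (by decide)) (Ap 9 (by decide))
  have B7 : B (v 7) = 0 := Bz 7 (by decide)
  have Bq : B q = 0 := by rw [hq, map_add, Bz 3 (by decide), Bz 4 (by decide), add_zero]
  have B0 : 0 < B (v 0) := Bp 0 (by decide)
  have Bp' : 0 < B p := by
    rw [hp, map_add, Bz 1 (by decide), zero_add]; exact Bp 2 (by decide)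
  have Br : 0 < B r := by
    rw [hr, map_add]; exact add_pos (Bp 5 (by decide)) (Bp 9 (by decide))
  have Bs : 0 < B s := by
    rw [hs, map_add]; exact add_pos (Bp 6 (by decide)) (Bp 8 (by decide))
  have C7 : C (v 7) = 0 := Cz 7 (by decide)
  have Cs : C s = 0 := by rw [hs, map_add, Cz 6 (by decide), Cz 8 (by decide), add_zero]
  have Cq : 0 < C q := by
    rw [hq, map_add]; exact add_pos (Cp 3 (by decide)) (Cp 4 (by decide))
  have Cr : 0 < C r := by
    rw [hr, map_add, Cz 5 (by decide), zero_add]; exact Cp 9 (by decide)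
  have Ds : D s = 0 := by rw [hs, map_add, Dz 6 (by decide), Dz 8 (by decide), add_zero]
  have Dr : D r = 0 := by rw [hr, map_add, Dz 5 (by decide), Dz 9 (by decide), add_zero]
  have Dq : 0 < D q := by
    rw [hq, map_add]; exact add_pos (Dp 3 (by decide)) (Dp 4 (by decide))
  have D7 : 0 < D (v 7) := Dp 7 (by decide)
  have D0 : 0 < D (v 0) := Dp 0 (by decide)
  have E0 : E (v 0) = 0 := Ez 0 (by decide)
  have Er : E r = 0 := by rw [hr, map_add, Ez 5 (by decide), Ez 9 (by decide), add_zero]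
  have Ep' : 0 < E p := by
    rw [hp, map_add]; exact add_pos (Ep 1 (by decide)) (Ep 2 (by decide))
  have Eq : 0 < E q := by
    rw [hq, map_add]; exact add_pos (Ep 3 (by decide)) (Ep 4 (by decide))
  have Es : 0 < E s := by
    rw [hs, map_add, Ez 6 (by decide), zero_add]; exact Ep 8 (by decide)
  let h : V →ₗ[ℝ] ℝ := D q • E - E q • D
  have hh : ∀ x, h x = D q * E x - E q * D x := by intro x; simp [h]
  have hr' : h r = 0 := by rw [hh, Er, Dr]; ring
  have hq' : h q = 0 := by rw [hh]; ring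
  have hs' : 0 < h s := by rw [hh, Ds]; have := mul_pos Dq Es; linarith
  have h0' : h (v 0) < 0 := by rw [hh, E0]; have := mul_pos Eq D0; linarith
  have h7 : 0 < h (v 7) := by
    obtain ⟨b1, b2, b3, b4, hb, hne⟩ := four r (v 7) s q Tr t7 Ts Tq
    have e1 := congrArg B hb
    have e2 := congrArg C hb
    have e3 := congrArg D hb
    have e4 := congrArg h hb
    simp only [map_add, map_smul, map_zero, smul_eq_mul, B7, Bq, C7, Cs, Ds, Dr, hr', hq',
      mul_zero, add_zero, zero_add] at e1 e2 e3 e4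
    have o1 := opp Br Bs e1
    have o2 := opp Cr Cq e2
    have o3 := opp D7 Dq e3
    rcases lt_trichotomy b1 0 with hb1 | hb1 | hb1
    · have h3 := o1.2.2.1 hb1
      have h2 := o3.2.2.2.1 (o2.2.2.1 hb1)
      by_contra hc; push Not at hc
      linarith [mul_pos h3 hs', mul_nonneg (neg_nonneg.2 h2.le) (neg_nonneg.2 hc)]
    · exact absurd ⟨hb1, o3.2.2.2.2.1 (o2.2.1 hb1), o1.2.1 hb1, o2.2.1 hb1⟩ hne
    · have h3 := o1.1 hb1
      have h2 := o3.2.2.2.2.2 (o2.1 hb1)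
      by_contra hc; push Not at hc
      linarith [mul_pos (neg_pos.2 h3) hs', mul_nonneg h2.le (neg_nonneg.2 hc)]
  have hp' : h p < 0 := by
    obtain ⟨a1, a2, a3, a4, ha, hne⟩ := four r p q (v 0) Tr Tp Tq t0
    have e1 := congrArg E ha
    have e2 := congrArg A ha
    have e3 := congrArg B ha
    have e4 := congrArg h ha
    simp only [map_add, map_smul, map_zero, smul_eq_mul, E0, Er, A0, Ap', Bq, hr', hq',
      mul_zero, add_zero, zero_add] at e1 e2 e3 e4
    have o1 := opp Ep' Eq e1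
    have o2 := opp Ar Aq e2
    rcases lt_trichotomy a3 0 with ha3 | ha3 | ha3
    · have h2 := o1.2.2.2.2.2 ha3
      have h1 := o2.2.2.2.2.2 ha3
      have h4 : a4 < 0 := by
        by_contra hc; push Not at hc
        linarith [mul_pos h1 Br, mul_pos h2 Bp', mul_nonneg hc B0.le]
      by_contra hc; push Not at hc
      linarith [mul_pos (neg_pos.2 h4) (neg_pos.2 h0'), mul_nonneg h2.le hc]
    · have h2 := o1.2.2.2.2.1 ha3
      have h1 := o2.2.2.2.2.1 ha3
      have h4 : a4 = 0 := by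
        rw [h1, h2] at e3
        simpa [B0.ne'] using e3
      exact absurd ⟨h1, h2, ha3, h4⟩ hne
    · have h2 := o1.2.2.2.1 ha3
      have h1 := o2.2.2.2.1 ha3
      have h4 : 0 < a4 := by
        by_contra hc; push Not at hc
        linarith [mul_pos (neg_pos.2 h1) Br, mul_pos (neg_pos.2 h2) Bp',
          mul_nonneg (neg_nonneg.2 hc) B0.le]
      by_contra hc; push Not at hc
      linarith [mul_pos h4 (neg_pos.2 h0'), mul_nonneg (neg_nonneg.2 h2.le) hc]
  obtain ⟨c0, c1, c3, c5, c6, c7, hc, hne⟩ := six_dep hV (v 0) (v 1) (v 3) (v 5) (v 6) (v 7)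
  obtain ⟨F1, F1z, F1p⟩ := ex f1356
  obtain ⟨F2, F2z, F2p⟩ := ex f0136
  obtain ⟨F3, F3z, F3p⟩ := ex f0356
  obtain ⟨F4, F4z, F4p⟩ := ex f1357
  obtain ⟨F5, F5z, F5p⟩ := ex f1567
  have e1 := congrArg F1 hc
  have e2 := congrArg F2 hc
  have e3 := congrArg F3 hc
  have e4 := congrArg F4 hc
  have e5 := congrArg F5 hc
  simp only [map_add, map_smul, map_zero, smul_eq_mul, F1z 1 (by decide), F1z 3 (by decide),
    F1z 5 (by decide), F1z 6 (by decide), F2z 0 (by decide), F2z 1 (by decide), F2z 3 (by decide),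
    F2z 6 (by decide), F3z 0 (by decide), F3z 3 (by decide), F3z 5 (by decide), F3z 6 (by decide),
    F4z 1 (by decide), F4z 3 (by decide), F4z 5 (by decide), F4z 7 (by decide), F5z 1 (by decide),
    F5z 5 (by decide), F5z 6 (by decide), F5z 7 (by decide), mul_zero, add_zero,
    zero_add] at e1 e2 e3 e4 e5
  have o1 := opp (F1p 0 (by decide)) (F1p 7 (by decide)) e1
  have o2 := opp (F2p 5 (by decide)) (F2p 7 (by decide)) e2
  have o3 := opp (F3p 1 (by decide)) (F3p 7 (by decide)) e3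
  have o4 := opp (F4p 0 (by decide)) (F4p 6 (by decide)) e4
  have o5 := opp (F5p 0 (by decide)) (F5p 3 (by decide)) e5
  have hT := congrArg T hc
  simp only [map_add, map_smul, map_zero, t0, t1, t3, t5, t6, t7] at hT
  have g1 := congrArg h hc
  have g2 := congrArg h hT
  have g3 : h (v 1) + h (v 2) = h p := by rw [hp, map_add]
  have g4 : h (v 3) + h (v 4) = 0 := by rw [← hq', hq, map_add]
  have g5 : h (v 5) + h (v 9) = 0 := by rw [← hr', hr, map_add]
  have g6 : h (v 6) + h (v 8) = h s := by rw [hs, map_add]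
  simp only [map_add, map_smul, map_zero, smul_eq_mul] at g1 g2
  have g : 2 * c0 * h (v 0) + c1 * h p + c6 * h s + 2 * c7 * h (v 7) = 0 := by
    rw [← g3, ← g6]
    linear_combination g1 + g2 - c3 * g4 - c5 * g5
  rcases lt_trichotomy c7 0 with h7' | h7' | h7'
  · have k0 := o1.2.2.2.2.2 h7'
    have k1 := o3.2.2.2.2.2 h7'
    have k6 := o4.1 k0
    linarith [mul_pos k0 (neg_pos.2 h0'), mul_pos k1 (neg_pos.2 hp'),
      mul_pos (neg_pos.2 k6) hs', mul_pos (neg_pos.2 h7') h7]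
  · have k0 := o1.2.2.2.2.1 h7'
    exact hne ⟨k0, o3.2.2.2.2.1 h7', o5.2.1 k0, o2.2.2.2.2.1 h7', o4.2.1 k0, h7'⟩
  · have k0 := o1.2.2.2.1 h7'
    have k1 := o3.2.2.2.1 h7'
    have k6 := o4.2.2.1 k0
    linarith [mul_pos (neg_pos.2 k0) (neg_pos.2 h0'), mul_pos (neg_pos.2 k1) (neg_pos.2 hp'),
      mul_pos k6 hs', mul_pos h7' h7]

end Pool.Agent.H473Z.SP
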