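import Pool.Agent.H473Z.SP.Ext
import Pool.Agent.H473Z.SP.Sym
import Pool.Agent.H473Z.SP.Cone
import Pool.Agent.H473Z.SP.Data

set_option autoImplicit false

/-!
A self-dual four-dimensional polytope without self-polar realisation.
-/

namespace Pool.Agent.H473Z.SP

open Set

def rl (u : Fin 5 → ℤ) : Fin 5 → ℝ := fun a => (u a : ℝ)

theorem rl_dot (u v : Fin 5 → ℤ) : rl u ⬝ᵥ rl v = (dot u v : ℝ) := by
  simp [rl, dot, dotProduct, Fin.sum_univ_five]

theorem rl_sum (u : Fin 5 → ℤ) : ∑ a, rl u a = (dot u (fun _ => 1) : ℝ) := by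
  simp [rl, dot, Fin.sum_univ_five]

theorem sum_pos' (i : Fin 37) : 0 < ∑ a, rl (R i) a := by
  rw [rl_sum]; exact_mod_cast d_sum i

theorem hull_eq : convexHull ℝ (range fun i => pt (rl (R i))) =
    {x : E4 | ∀ k, 0 ≤ rl (Fc k) 3 + lin (rl (Fc k)) x} := by
  apply Subset.antisymm
  · refine convexHull_min ?_ ?_
    · rintro _ ⟨i, rfl⟩ k
      rw [lin_eq, dot_lift_pt _ _ (sum_pos' i), rl_dot]
      refine mul_nonneg (inv_nonneg.2 (sum_pos' i).le) ?_
      exact_mod_cast d_nonneg i k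
    · intro x hx y hy a b ha hb hab k
      have h1 := hx k
      have h2 := hy k
      simp only [map_add, map_smul, smul_eq_mul]
      have : rl (Fc k) 3 = a * rl (Fc k) 3 + b * rl (Fc k) 3 := by rw [← add_mul, hab, one_mul]
      rw [this]
      nlinarith [mul_nonneg ha h1, mul_nonneg hb h2]
  · intro x hx
    have hx' : ∀ k, 0 ≤ rl (Fc k) ⬝ᵥ lift x := fun k => by rw [← lin_eq]; exact hx k
    rcases le_total 0 (rl et ⬝ᵥ lift x) with ht | ht
    · obtain ⟨w, hw0, hw⟩ := simplicial (fun i => rl (H1 i)) (fun j => rl (G1 j)) sel1 nb1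
        (fun j a => by rw [rl_dot]; exact_mod_cast s1_1 j a)
        (fun j a b hb => by rw [rl_dot]; exact_mod_cast s1_2 j a b hb)
        (fun j a => by rw [rl_dot]; exact_mod_cast s1_3 j a)
        (fun j => by simp only [rl_dot]; exact_mod_cast s1_4 j) (lift x)
        (fun j => by
          unfold G1
          split_ifs
          · exact hx' _
          · exact ht)
      have := hull_of_cone (fun i => rl (H1 i)) (fun i => sum_pos' _) x w hw0 hw
      refine convexHull_mono ?_ this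
      rintro _ ⟨i, rfl⟩
      exact ⟨_, rfl⟩
    · have := hull_of_dual (fun j => rl (R (idx2 j))) (fun j => sum_pos' _) (fun i => rl (H2 i))
        (simplicial (fun i => rl (H2 i)) (fun j => rl (R (idx2 j))) sel2 nb2
          (fun j a => by rw [rl_dot]; exact_mod_cast s2_1 j a)
          (fun j a b hb => by rw [rl_dot]; exact_mod_cast s2_2 j a b hb)
          (fun j a => by rw [rl_dot]; exact_mod_cast s2_3 j a)
          (fun j => by simp only [rl_dot]; exact_mod_cast s2_4 j)) x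
        (fun i => by
          unfold H2
          split_ifs
          · exact hx' _
          · have : rl (fun a => - et a) = - rl et := by ext a; simp [rl]
            rw [this, neg_dotProduct]; linarith)
      refine convexHull_mono ?_ this
      rintro _ ⟨i, rfl⟩
      exact ⟨_, rfl⟩

noncomputable def DD : Desc E4 (Fin 37) (Fin 37) where
  s i := pt (rl (R i))
  l k := lin (rl (Fc k))
  c k := rl (Fc k) 3
  I i k := Ib i k = true
  hA := hull_eq
  hI i k := by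
    rw [lin_eq, dot_lift_pt _ _ (sum_pos' i), rl_dot, d_inc, mul_eq_zero,
      or_iff_right (inv_pos.2 (sum_pos' i)).ne']
    exact_mod_cast Iff.rfl
  hne := d_ne

theorem int_ne : (interior DD.A).Nonempty := by
  have ho : IsOpen {x : E4 | ∀ k, 0 < rl (Fc k) 3 + lin (rl (Fc k)) x} := by
    rw [setOf_forall]
    exact isOpen_iInter_of_finite fun k => isOpen_lt continuous_const (by fun_prop)
  have hs : 0 < ∑ a, rl (fun a => ∑ i, R i a) a := by
    rw [rl_sum]; exact_mod_cast d_int2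
  refine ⟨pt (rl fun a => ∑ i, R i a), interior_maximal ?_ ho ?_⟩
  · intro x hx
    change x ∈ convexHull ℝ (range fun i => pt (rl (R i)))
    rw [hull_eq]
    exact fun k => (hx k).le
  · intro k
    rw [lin_eq, dot_lift_pt _ _ hs, rl_dot]
    refine mul_pos (inv_pos.2 hs) ?_
    exact_mod_cast d_int k

theorem self_dual : Nonempty ({F : Set E4 // IsExposed ℝ DD.A F} ≃o
    ({F : Set E4 // IsExposed ℝ DD.A F})ᵒᵈ) :=
  DD.selfdual (Function.Involutive.toPerm al d_al) (Function.Involutive.toPerm be d_be) d_dual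

theorem no721 : ∀ k, ¬ (Ib 7 k = true ∧ Ib 2 k = true ∧ Ib 1 k = true) := by decide +kernel

theorem square (α β : Fin 37 ≃ Fin 37) (h : ∀ i k, Ib i k = true ↔ Ib (α k) (β i) = true) :
    α (β 0) = 0 ∧ α (β 1) = 2 ∧ α (β 2) = 1 ∧ α (β 3) = 4 ∧ α (β 4) = 3 ∧ α (β 5) = 9 ∧
      α (β 6) = 8 ∧ α (β 7) = 7 ∧ α (β 8) = 6 ∧ α (β 9) = 5 := by
  have c1 : ∀ i j, ct i j = cc (β i) (β j) := by
    intro i j
    rw [← d_ct, ← d_cc]
    refine Finset.card_equiv α fun k => ?_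
    simp only [Finset.mem_filter, Finset.mem_univ, true_and]
    rw [h i, h j]
  have c2 : ∀ i j, cc i j = ct (α i) (α j) := by
    intro i j
    rw [← d_ct, ← d_cc]
    refine Finset.card_equiv β fun k => ?_
    simp only [Finset.mem_filter, Finset.mem_univ, true_and]
    rw [h k i, h k j]
  obtain ⟨hb, hb'⟩ := cases1 β c1
  obtain ⟨ha, ha'⟩ := cases2 α c2
  have h14 := h 1 4
  have key : α (β 1) = 2 ∧ α (β 2) = 1 ∧ α (β 3) = 4 ∧ α (β 4) = 3 ∧ α (β 5) = 9 ∧
      α (β 6) = 8 ∧ α (β 8) = 6 ∧ α (β 9) = 5 := by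
    rcases hb with ⟨b1, b2, b3, b4, b5, b6, b8, b9⟩ | ⟨b1, b2, b3, b4, b5, b6, b8, b9⟩ <;>
    rcases ha with ⟨a1, a2, a3, a4, a5, a6, a8, a9⟩ | ⟨a1, a2, a3, a4, a5, a6, a8, a9⟩
    · rw [a4, b1] at h14; exact absurd h14 (by decide)
    · rw [b1, b2, b3, b4, b5, b6, b8, b9]; exact ⟨a1, a2, a3, a4, a5, a6, a8, a9⟩
    · rw [b1, b2, b3, b4, b5, b6, b8, b9]; exact ⟨a2, a1, a4, a3, a9, a8, a6, a5⟩
    · rw [a4, b1] at h14; exact absurd h14 (by decide)
  obtain ⟨k1, k2, k3, k4, k5, k6, k8, k9⟩ := key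
  have k07 : α (β 0) = 0 ∧ α (β 7) = 7 := by
    have hn : α (β 0) ≠ 7 := by
      intro h7
      apply no721 (β (α 10))
      have e0 := (h _ _).1 ((h 0 10).1 (by decide))
      have e1 := (h _ _).1 ((h 1 10).1 (by decide))
      have e2 := (h _ _).1 ((h 2 10).1 (by decide))
      rw [h7] at e0
      rw [k1] at e1
      rw [k2] at e2
      exact ⟨e0, e1, e2⟩
    rcases hb' with ⟨b0, b7⟩ | ⟨b0, b7⟩ <;> rcases ha' with ⟨a0, a7⟩ | ⟨a0, a7⟩
    · rw [b0, b7]; exact ⟨a0, a7⟩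
    · rw [b0] at hn; exact absurd a0 hn
    · rw [b0] at hn; exact absurd a7 hn
    · rw [b0, b7]; exact ⟨a7, a0⟩
  exact ⟨k07.1, k1, k2, k3, k4, k5, k6, k07.2, k8, k9⟩

def up (i : Fin 10) : Fin 37 := ⟨i.val, by omega⟩

theorem no_polar (T : Finset E4) (U : E4 ≃ₗᵢ[ℝ] E4)
    (e : {F : Set E4 // IsExposed ℝ DD.A F} ≃o
      {F : Set E4 // IsExposed ℝ (convexHull ℝ (T : Set E4)) F})
    (h0 : (0 : E4) ∈ interior (convexHull ℝ (T : Set E4)))
    (hP : {y : E4 | ∀ x ∈ convexHull ℝ (T : Set E4), inner ℝ x y ≤ (1 : ℝ)} =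
      U '' convexHull ℝ (T : Set E4)) : False := by
  obtain ⟨w, σ, π, h1, h2, h3⟩ := extract DD d_cl d_anti d_fne d_prop rfl T U e h0 hP
  have h2' : ∀ i k, Ib i k = true ↔ inner ℝ (w i) (U (w (σ k))) = (1 : ℝ) := h2
  have hd : ∀ i k, Ib i k = true ↔ Ib ((σ.trans π) k) (σ.symm i) = true := by
    intro i k
    rw [h2', h2', Equiv.trans_apply, ← h3, σ.apply_symm_apply, U.inner_map_map, real_inner_comm]
  have hs := square (σ.trans π) σ.symm hd
  simp only [Equiv.trans_apply, Equiv.apply_symm_apply] at hs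
  obtain ⟨p0, p1, p2, p3, p4, p5, p6, p7, p8, p9⟩ := hs
  let v : Fin 10 → ℝ × E4 := fun i => (1, w (up i))
  let TT : (ℝ × E4) →ₗ[ℝ] (ℝ × E4) :=
    LinearMap.prodMap LinearMap.id (U.toLinearEquiv.toLinearMap ∘ₗ U.toLinearEquiv.toLinearMap)
  have hT : ∀ i j : Fin 10, π (up i) = up j → TT (v i) = v j := by
    intro i j hij
    simp only [TT, v, LinearMap.prodMap_apply, LinearMap.id_apply, LinearMap.comp_apply]
    rw [← hij, ← h3]
    rfl
  have hF : ∀ (k : Fin 37) (a b c d : Fin 10),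
      (∀ i, Ib (up i) k = true ↔ (i = a ∨ i = b ∨ i = c ∨ i = d)) → Fac v a b c d := by
    intro k a b c d hk
    refine ⟨LinearMap.fst ℝ ℝ E4 -
      (innerSL ℝ (U (w (σ k)))).toLinearMap ∘ₗ LinearMap.snd ℝ ℝ E4, fun i => ?_⟩
    have : (LinearMap.fst ℝ ℝ E4 -
      (innerSL ℝ (U (w (σ k)))).toLinearMap ∘ₗ LinearMap.snd ℝ ℝ E4) (v i) =
        1 - inner ℝ (w (up i)) (U (w (σ k))) := by
      simp [v, real_inner_comm]
    rw [this, ← hk, h2']
    refine ⟨fun h => by linarith, fun h => ?_⟩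
    have := lt_of_le_of_ne (h1 (up i) (σ k)) h
    linarith
  exact no_sym (by simp) v TT (hT 0 0 p0) (hT 1 2 p1) (hT 2 1 p2) (hT 3 4 p3) (hT 4 3 p4)
    (hT 5 9 p5) (hT 6 8 p6) (hT 7 7 p7) (hT 8 6 p8) (hT 9 5 p9)
    (hF 10 _ _ _ _ (by decide)) (hF 16 _ _ _ _ (by decide)) (hF 24 _ _ _ _ (by decide))
    (hF 34 _ _ _ _ (by decide)) (hF 27 _ _ _ _ (by decide)) (hF 15 _ _ _ _ (by decide))
    (hF 13 _ _ _ _ (by decide)) (hF 14 _ _ _ _ (by decide)) (hF 18 _ _ _ _ (by decide))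
    (hF 20 _ _ _ _ (by decide))

end Pool.Agent.H473Z.SP
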